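import Mathlib

set_option autoImplicit false

/-!
MP_37e900_nt: a vanishing terminating `3F2(4/3)`, first family.
-/

namespace Pool.Agent.K3h68.FE

open Finset Polynomial

theorem poly_id (n : ℕ) : (1 - X : ℚ[X]) * ∑ k ∈ range (n + 1),
      C ((-1 / 3 : ℚ) ^ k * (n.choose k : ℚ)) * (X ^ (n - k) * (1 + X) ^ (n + 3 + 2 * k)) =
    C ((-1 / 3 : ℚ) ^ n) * (expand ℚ 3 ((1 - 2 * X) * (1 + X) ^ n) +
      X * expand ℚ 3 ((2 - X) * (1 + X) ^ n)) := by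
  have h1 : ∑ k ∈ range (n + 1),
      C ((-1 / 3 : ℚ) ^ k * (n.choose k : ℚ)) * (X ^ (n - k) * (1 + X) ^ (n + 3 + 2 * k)) =
      (1 + X) ^ (n + 3) * (C (-1 / 3 : ℚ) * (1 + X) ^ 2 + X) ^ n := by
    rw [add_pow (C (-1 / 3 : ℚ) * (1 + X) ^ 2) X n, mul_sum]
    refine sum_congr rfl fun k _ => ?_
    rw [C_mul, C_pow, mul_pow, ← pow_mul, pow_add (1 + X : ℚ[X]) (n + 3) (2 * k)]
    have : C ((n.choose k : ℕ) : ℚ) = ((n.choose k : ℕ) : ℚ[X]) := by simp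
    rw [this]
    ring
  have h2 : (1 + X : ℚ[X]) * (C (-1 / 3 : ℚ) * (1 + X) ^ 2 + X) = C (-1 / 3 : ℚ) * (1 + X ^ 3) := by
    have : (X : ℚ[X]) = C (-1 / 3 : ℚ) * (-3 * X) := by
      have h3 : (-3 : ℚ[X]) = C (-3 : ℚ) := by rw [C_neg, map_ofNat C 3]
      rw [h3, ← mul_assoc, ← C_mul]
      norm_num
    conv_lhs => rw [show C (-1 / 3 : ℚ) * (1 + X) ^ 2 + X = C (-1 / 3 : ℚ) * (1 + X) ^ 2 + C (-1 / 3 : ℚ) * (-3 * X) from by rw [← this]]
    ring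
  rw [h1, pow_add, mul_comm ((1 + X : ℚ[X]) ^ n), mul_assoc ((1 + X : ℚ[X]) ^ 3), ← mul_pow, h2]
  rw [mul_pow, ← C_pow]
  have e1 : expand ℚ 3 ((1 - 2 * X) * (1 + X) ^ n) = (1 - 2 * X ^ 3) * (1 + X ^ 3) ^ n := by
    simp only [map_mul, map_sub, map_one, map_pow, map_add, expand_X]
    congr 3
    exact map_ofNat _ 2
  have e2 : expand ℚ 3 ((2 - X) * (1 + X) ^ n) = (2 - X ^ 3) * (1 + X ^ 3) ^ n := by
    simp only [map_mul, map_sub, map_one, map_pow, map_add, expand_X]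
    congr 2
    exact map_ofNat _ 2
  rw [e1, e2]
  ring

theorem choose_rel (q : ℕ) : ((3 * q + 2).choose (q + 1) : ℚ) = 2 * ((3 * q + 2).choose q : ℚ) := by
  have h := Nat.choose_succ_right_eq (3 * q + 2) q
  have h2 : 3 * q + 2 - q = 2 * (q + 1) := by omega
  rw [h2] at h
  have h3 : ((3 * q + 2).choose (q + 1) : ℚ) * (q + 1) = ((3 * q + 2).choose q : ℚ) * (2 * (q + 1)) := by
    exact_mod_cast h
  have h4 : ((q : ℚ) + 1) ≠ 0 := by positivity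
  apply mul_right_cancel₀ h4
  rw [h3]; ring

theorem van1 (n : ℕ) (hn : n % 3 ≠ 0) : ∑ k ∈ range (n + 1), (-1 / 3 : ℚ) ^ k * (n.choose k : ℚ) *
    (((n + 3 + 2 * k).choose (k + 1) : ℚ) - ((n + 3 + 2 * k).choose k : ℚ)) = 0 := by
  have h := congrArg (fun P : ℚ[X] => P.coeff (n + 1)) (poly_id n)
  beta_reduce at h
  rw [sub_mul, one_mul, coeff_sub, coeff_X_mul, finsetSum_coeff, finsetSum_coeff, ← sum_sub_distrib] at h
  have h1 : ∀ k ∈ range (n + 1), (C ((-1 / 3 : ℚ) ^ k * (n.choose k : ℚ)) *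
        (X ^ (n - k) * (1 + X) ^ (n + 3 + 2 * k))).coeff (n + 1) -
      (C ((-1 / 3 : ℚ) ^ k * (n.choose k : ℚ)) *
        (X ^ (n - k) * (1 + X) ^ (n + 3 + 2 * k))).coeff n =
      (-1 / 3 : ℚ) ^ k * (n.choose k : ℚ) *
        (((n + 3 + 2 * k).choose (k + 1) : ℚ) - ((n + 3 + 2 * k).choose k : ℚ)) := by
    intro k hk
    have hk' : k ≤ n := by have := mem_range.1 hk; omega
    rw [coeff_C_mul, coeff_C_mul, coeff_X_pow_mul', coeff_X_pow_mul', if_pos (by omega), if_pos (by omega),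
      coeff_one_add_X_pow, coeff_one_add_X_pow, show n + 1 - (n - k) = k + 1 by omega,
      show n - (n - k) = k by omega]
    ring
  rw [sum_congr rfl h1] at h
  rw [h, coeff_C_mul, coeff_add, coeff_X_mul, coeff_expand (by norm_num), coeff_expand (by norm_num),
    if_neg (show ¬ 3 ∣ n by omega), add_zero]
  split_ifs with h3
  · obtain ⟨q, hq⟩ : ∃ q, n = 3 * q + 2 := ⟨(n + 1) / 3 - 1, by omega⟩
    have h4 : (n + 1) / 3 = q + 1 := by omega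
    rw [h4, hq]
    have h5 : ((1 - 2 * X : ℚ[X]) * (1 + X) ^ (3 * q + 2)).coeff (q + 1) =
        ((3 * q + 2).choose (q + 1) : ℚ) - 2 * ((3 * q + 2).choose q : ℚ) := by
      rw [sub_mul, one_mul, coeff_sub, coeff_one_add_X_pow, mul_assoc]
      have : (2 : ℚ[X]) = C (2 : ℚ) := (map_ofNat C 2).symm
      rw [this, coeff_C_mul, coeff_X_mul, coeff_one_add_X_pow]
    rw [h5, choose_rel]; ring
  · ring

end Pool.Agent.K3h68.FE
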