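import Mathlib

set_option autoImplicit false

/-!
MP_37e900_nt: a vanishing terminating `3F2(4/3)`, second family.
-/

namespace Pool.Agent.K3h68.FE

open Finset PowerSeries

/-- `1 - x + x^2/3` -/
noncomputable def ph : ℚ⟦X⟧ := 1 - X + C (1 / 3 : ℚ) * X ^ 2

/-- its inverse -/
noncomputable def ps : ℚ⟦X⟧ := ph⁻¹

/-- `1 - x` -/
noncomputable def vv : ℚ⟦X⟧ := 1 - X

/-- `1 / (1 - x)` -/
noncomputable def vi : ℚ⟦X⟧ := mk fun _ => 1

theorem ph_ps : ph * ps = 1 := by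
  refine PowerSeries.mul_inv_cancel _ ?_
  simp [ph]

theorem vv_vi : vv * vi = 1 := by
  rw [mul_comm]
  exact mk_one_mul_one_sub_eq_one ℚ

theorem c3 : (3 : ℚ⟦X⟧) * C (1 / 3 : ℚ) = 1 := by
  have : (3 : ℚ⟦X⟧) = C (3 : ℚ) := (map_ofNat C 3).symm
  rw [this, ← map_mul]
  norm_num

theorem vv_cube : vv ^ 3 = 1 - 3 * X * ph := by
  rw [vv, ph]
  linear_combination X ^ 3 * c3

theorem dph : d⁄dX ℚ ph = -1 + C (2 / 3 : ℚ) * X := by
  ext n
  rw [coeff_derivative]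
  rcases n with _ | _ | n
  · simp [ph, coeff_X, coeff_one]
  · simp [ph, coeff_X, coeff_one, coeff_X_pow]
    norm_num
  · simp [ph, coeff_X, coeff_one, coeff_X_pow]

theorem vv_sq : vv ^ 2 = ph + X * d⁄dX ℚ ph := by
  have h : C (2 / 3 : ℚ) = 2 * C (1 / 3 : ℚ) := by
    have : (2 : ℚ⟦X⟧) = C (2 : ℚ) := (map_ofNat C 2).symm
    rw [this, ← map_mul]
    norm_num
  rw [dph, vv, ph, h]
  linear_combination -X ^ 2 * c3

theorem dps (q : ℕ) : d⁄dX ℚ (ps ^ q) = -(q : ℚ⟦X⟧) * (ps ^ (q + 1) * d⁄dX ℚ ph) := by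
  have h := (d⁄dX ℚ).leibniz_pow (a := ps) q
  rw [h, ps, derivative_inv']
  rcases q with _ | q
  · simp
  · simp only [Nat.add_sub_cancel, smul_eq_mul, nsmul_eq_mul]
    push_cast
    ring

/-- the residue of an exact form vanishes -/
theorem res_zero (q : ℕ) (hq : 0 < q) : coeff q (vv ^ 2 * ps ^ (q + 1)) = 0 := by
  have h1 : vv ^ 2 * ps ^ (q + 1) = ps ^ q + X * (ps ^ (q + 1) * d⁄dX ℚ ph) := by
    rw [vv_sq, pow_succ]
    linear_combination ps ^ q * ph_ps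
  have h2 : X * d⁄dX ℚ (ps ^ q) = -(q : ℚ⟦X⟧) * (vv ^ 2 * ps ^ (q + 1) - ps ^ q) := by
    rw [h1, dps]; ring
  have h3 := congrArg (coeff q) h2
  obtain ⟨r, rfl⟩ : ∃ r, q = r + 1 := ⟨q - 1, by omega⟩
  rw [coeff_succ_X_mul, coeff_derivative] at h3
  have h4 : (-((r + 1 : ℕ) : ℚ⟦X⟧)) * (vv ^ 2 * ps ^ (r + 1 + 1) - ps ^ (r + 1)) =
      C (-((r + 1 : ℕ) : ℚ)) * (vv ^ 2 * ps ^ (r + 1 + 1) - ps ^ (r + 1)) := by
    rw [map_neg, map_natCast]
  rw [h4, coeff_C_mul, map_sub] at h3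
  have h5 : ((r : ℚ) + 1) * coeff (r + 1) (vv ^ 2 * ps ^ (r + 1 + 1)) = 0 := by
    push_cast at h3
    linear_combination h3
  rcases mul_eq_zero.1 h5 with h | h
  · have : ((r : ℚ) + 1) ≠ 0 := by positivity
    exact absurd h this
  · exact h

/-- claim A -/
theorem claimA (M : ℕ) : coeff (3 * M + 4) (vv ^ (3 * M + 5) * ps ^ (3 * M + 5)) = 0 := by
  have h1 : vv ^ (3 * M + 5) = vv ^ 2 * (1 + (-3 * X * ph)) ^ (M + 1) := by
    rw [show 3 * M + 5 = 2 + 3 * (M + 1) by ring, pow_add, pow_mul, vv_cube]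
    congr 2
    ring
  have h2 : vv ^ (3 * M + 5) * ps ^ (3 * M + 5) = ∑ i ∈ range (M + 1 + 1),
      C ((-3 : ℚ) ^ i * ((M + 1).choose i : ℚ)) * (X ^ i * (vv ^ 2 * ps ^ (3 * M + 4 - i + 1))) := by
    rw [h1, add_comm (1 : ℚ⟦X⟧), add_pow, mul_sum, sum_mul]
    refine sum_congr rfl fun i hi => ?_
    have hi' : i ≤ M + 1 := by have := mem_range.1 hi; omega
    have h3 : ps ^ (3 * M + 5) = ps ^ i * ps ^ (3 * M + 4 - i + 1) := by
      rw [← pow_add]; congr 1; omega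
    have h4 : ph ^ i * ps ^ i = 1 := by rw [← mul_pow, ph_ps, one_pow]
    have h5 : C ((-3 : ℚ) ^ i * ((M + 1).choose i : ℚ)) = (-3 : ℚ⟦X⟧) ^ i * ((M + 1).choose i : ℚ⟦X⟧) := by
      rw [map_mul, map_pow, map_neg, map_natCast, map_ofNat]
    rw [h3, h5, one_pow, mul_pow, mul_pow]
    linear_combination ((-3 : ℚ⟦X⟧) ^ i * ((M + 1).choose i : ℚ⟦X⟧) * X ^ i * vv ^ 2 *
      ps ^ (3 * M + 4 - i + 1)) * h4
  rw [h2, map_sum]
  refine sum_eq_zero fun i hi => ?_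
  have hi' : i ≤ M + 1 := by have := mem_range.1 hi; omega
  rw [coeff_C_mul, coeff_X_pow_mul', if_pos (by omega), res_zero _ (by omega), mul_zero]

/-- truncated binomial series -/
theorem trunc {R : Type*} [CommRing R] (t : R) (J : ℕ) : ∀ L : ℕ, ∃ q : R,
    (1 - t) ^ (L + 1) * ∑ j ∈ range (J + 1), ((L + j).choose j : R) * t ^ j = 1 + t ^ (J + 1) * q := by
  intro L
  induction L with
  | zero =>
    refine ⟨-1, ?_⟩
    have h := mul_neg_geom_sum t (J + 1)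
    simp only [zero_add, Nat.choose_self, Nat.cast_one, one_mul, pow_one]
    rw [h]; ring
  | succ L ih =>
    obtain ⟨q, hq⟩ := ih
    have h : ∀ J : ℕ, (1 - t) * ∑ j ∈ range (J + 1), ((L + 1 + j).choose j : R) * t ^ j =
        ∑ j ∈ range (J + 1), ((L + j).choose j : R) * t ^ j - ((L + 1 + J).choose J : R) * t ^ (J + 1) := by
      intro J
      induction J with
      | zero => simp
      | succ J ihJ =>
        rw [sum_range_succ, mul_add, ihJ, sum_range_succ _ (J + 1)]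
        have h1 : ((L + 1 + (J + 1)).choose (J + 1) : R) =
            ((L + 1 + J).choose J : R) + ((L + (J + 1)).choose (J + 1) : R) := by
          rw [show L + 1 + (J + 1) = (L + 1 + J) + 1 by ring, Nat.choose_succ_succ,
            show L + (J + 1) = L + 1 + J by ring]
          push_cast; ring
        rw [h1]; ring
    refine ⟨q - ((L + 1 + J).choose J : R) * (1 - t) ^ (L + 1), ?_⟩
    rw [pow_succ, mul_assoc, h J, mul_sub, hq]; ring

theorem vi_pow (k : ℕ) : vi ^ (k + 1) = mk fun n => ((k + n).choose k : ℚ) := by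
  have h1 := mk_add_choose_mul_one_sub_pow_eq_one ℚ k
  have h2 : vv ^ (k + 1) * vi ^ (k + 1) = 1 := by rw [← mul_pow, vv_vi, one_pow]
  have h3 : (mk fun n => ((k + n).choose k : ℚ)) * vv ^ (k + 1) = 1 := h1
  calc vi ^ (k + 1) = ((mk fun n => ((k + n).choose k : ℚ)) * vv ^ (k + 1)) * vi ^ (k + 1) := by
        rw [h3, one_mul]
    _ = (mk fun n => ((k + n).choose k : ℚ)) * (vv ^ (k + 1) * vi ^ (k + 1)) := by ring
    _ = _ := by rw [h2, mul_one]

/-- claim B -/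
theorem claimB (N : ℕ) : coeff (N + 2) (vv ^ (N + 3) * ps ^ (N + 3)) =
    ∑ k ∈ range (N + 1), (-1 / 3 : ℚ) ^ (k + 1) * ((N + 3 + k).choose (k + 1) : ℚ) * ((N - k).choose k : ℚ) := by
  set t : ℚ⟦X⟧ := C (-1 / 3 : ℚ) * X ^ 2 * vi with ht
  have h1 : (1 - t) * (vv * ps) = 1 := by
    have h2 : vv * (1 - t) = ph := by
      have h3 : C (-1 / 3 : ℚ) = -C (1 / 3 : ℚ) := by rw [← map_neg]; norm_num
      rw [ht, ph, h3]
      have : vv = 1 - X := rfl
      linear_combination this + (C (1 / 3 : ℚ) * X ^ 2) * vv_vi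
    calc (1 - t) * (vv * ps) = (vv * (1 - t)) * ps := by ring
      _ = 1 := by rw [h2, ph_ps]
  obtain ⟨q, hq⟩ := trunc t (N + 1) (N + 2)
  have h2 : vv ^ (N + 3) * ps ^ (N + 3) = ∑ j ∈ range (N + 1 + 1), ((N + 2 + j).choose j : ℚ⟦X⟧) * t ^ j -
      t ^ (N + 1 + 1) * (q * (vv * ps) ^ (N + 3)) := by
    have h3 : (1 - t) ^ (N + 2 + 1) * (vv * ps) ^ (N + 3) = 1 := by
      rw [show N + 2 + 1 = N + 3 by ring, ← mul_pow, h1, one_pow]
    rw [← mul_pow]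
    linear_combination (∑ j ∈ range (N + 1 + 1), ((N + 2 + j).choose j : ℚ⟦X⟧) * t ^ j) * h3 -
      (vv * ps) ^ (N + 3) * hq
  have htp : ∀ j, t ^ j = C ((-1 / 3 : ℚ) ^ j) * (X ^ (2 * j) * vi ^ j) := by
    intro j
    rw [ht, mul_pow, mul_pow, ← map_pow, ← pow_mul]; ring
  rw [h2, map_sub, htp (N + 1 + 1), mul_assoc, coeff_C_mul, mul_assoc, coeff_X_pow_mul', if_neg (by omega),
    mul_zero, sub_zero, sum_range_succ', map_add]
  have h4 : coeff (N + 2) (((N + 2 + 0).choose 0 : ℚ⟦X⟧) * t ^ 0) = 0 := by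
    rw [pow_zero, Nat.choose_zero_right, Nat.cast_one, mul_one, coeff_one, if_neg (by omega)]
  rw [h4, add_zero, map_sum]
  refine sum_congr rfl fun k hk => ?_
  have hk' : k ≤ N := by have := mem_range.1 hk; omega
  rw [htp]
  have h5 : (((N + 2 + (k + 1)).choose (k + 1) : ℕ) : ℚ⟦X⟧) = C ((N + 3 + k).choose (k + 1) : ℚ) := by
    rw [map_natCast, show N + 2 + (k + 1) = N + 3 + k by ring]
  rw [h5, coeff_C_mul, coeff_C_mul, coeff_X_pow_mul']
  split_ifs with h6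
  · rw [vi_pow, coeff_mk, show k + (N + 2 - 2 * (k + 1)) = N - k by omega]; ring
  · rw [Nat.choose_eq_zero_of_lt (show N - k < k by omega)]; push_cast; ring

theorem van2 (N : ℕ) (hN : N % 3 = 2) : ∑ k ∈ range (N + 1),
    (-1 / 3 : ℚ) ^ k * ((N - k).choose k : ℚ) * ((N + 3 + k).choose (k + 1) : ℚ) = 0 := by
  obtain ⟨M, rfl⟩ : ∃ M, N = 3 * M + 2 := ⟨N / 3, by omega⟩
  have h := claimB (3 * M + 2)
  rw [show 3 * M + 2 + 2 = 3 * M + 4 by ring, show 3 * M + 2 + 3 = 3 * M + 5 by ring, claimA] at h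
  have h2 : ∑ k ∈ range (3 * M + 2 + 1), (-1 / 3 : ℚ) ^ (k + 1) * ((3 * M + 5 + k).choose (k + 1) : ℚ) *
      ((3 * M + 2 - k).choose k : ℚ) = (-1 / 3) * ∑ k ∈ range (3 * M + 2 + 1),
      (-1 / 3 : ℚ) ^ k * ((3 * M + 2 - k).choose k : ℚ) * ((3 * M + 2 + 3 + k).choose (k + 1) : ℚ) := by
    rw [mul_sum]
    refine sum_congr rfl fun k _ => ?_
    rw [show 3 * M + 2 + 3 + k = 3 * M + 5 + k by ring]; ring
  rw [h2] at h
  linear_combination 3 * h

end Pool.Agent.K3h68.FE
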