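import Mathlib
import Pool.Agent.R488.Cub.Facts
import Pool.Agent.K3h68.FE.Vanish1
import Pool.Agent.K3h68.FE.Vanish2

set_option autoImplicit false

/-!
MP_37e900_nt, Q1: `∑ C(4k,2k+1) C(2k,k) / 48^k = 0` modulo `p^2`.
-/

namespace Pool.Agent.K3h68.FE

open Finset Pool.Agent.R439.PL Pool.Agent.R439.PL.S4 Pool.Agent.R488.Tri Pool.Agent.R488.Cub

variable {p : ℕ} [hp : Fact p.Prime]

/-- the family -/
def fa (s : ℚ) (k : ℕ) : ℚ := (1 / 3) ^ k * (∏ i ∈ range k, ((5 / 2 + k + i + s) * (3 / 2 + i - s))) *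
  (((k + 1).factorial : ℚ) * k.factorial)⁻¹

theorem U_fac' {k : ℕ} (h : k < p) : U p (k.factorial : ℚ) := by
  induction k with
  | zero => simpa using U.one
  | succ k ih =>
    rw [Nat.factorial_succ]; push_cast
    have := U_nat (p := p) (k := k + 1) (by omega) h
    push_cast at this
    exact this.mul (ih (by omega))

theorem lin_fa (h3 : 3 < p) {k : ℕ} (hk : k + 1 < p) : Lin p (fun s => fa s k) := by
  have u2 : U p (2 : ℚ) := by exact_mod_cast U_nat (p := p) (k := 2) (by norm_num) (by omega)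
  have u3 : U p (3 : ℚ) := by exact_mod_cast U_nat (p := p) (k := 3) (by norm_num) (by omega)
  have m52 : (5 / 2 : ℚ) ∈ Zp p := by
    rw [div_eq_mul_inv]; exact mul_mem (by exact_mod_cast nat_mem (p := p) 5) u2.2.2
  have m32 : (3 / 2 : ℚ) ∈ Zp p := by rw [div_eq_mul_inv]; exact mul_mem u3.2.1 u2.2.2
  have m13 : (1 / 3 : ℚ) ∈ Zp p := by rw [one_div]; exact u3.2.2
  have h1 : Lin p (fun s => (1 / 3 : ℚ) ^ k + 0 * s) := Lin.affine (pow_mem m13 _) (zero_mem _)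
  have uf := (U_fac' (p := p) hk).mul (U_fac' (p := p) (k := k) (by omega))
  have h2 : Lin p (fun s => ((((k + 1).factorial : ℚ) * k.factorial)⁻¹) + 0 * s) :=
    Lin.affine uf.2.2 (zero_mem _)
  have h4 : Lin p (fun s : ℚ => ∏ i ∈ range k, ((5 / 2 + (k : ℚ) + (i : ℚ) + 1 * s) * (3 / 2 + (i : ℚ) + (-1) * s))) := by
    refine Lin.prod (f := fun (i : ℕ) (s : ℚ) => ((5 / 2 + (k : ℚ) + (i : ℚ) + 1 * s) * (3 / 2 + (i : ℚ) + (-1) * s))) fun i _ => ?_
    exact (Lin.affine (add_mem (add_mem m52 (nat_mem k)) (nat_mem i)) (one_mem _)).mul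
      (Lin.affine (add_mem m32 (nat_mem i)) (neg_mem (one_mem _)))
  have h5 := (h1.mul h4).mul h2
  have e : (fun s : ℚ => ((1 / 3 : ℚ) ^ k + 0 * s) * (∏ i ∈ range k, ((5 / 2 + (k : ℚ) + (i : ℚ) + 1 * s) * (3 / 2 + (i : ℚ) + (-1) * s))) *
      ((((k + 1).factorial : ℚ) * k.factorial)⁻¹ + 0 * s)) = fun s => fa s k := by
    funext s
    rw [fa, zero_mul, add_zero, add_zero]
    congr 2
    refine prod_congr rfl fun i _ => ?_
    ring
  rwa [e] at h5

theorem prod_asc (m k : ℕ) : (m.factorial : ℚ) * ∏ i ∈ range k, ((m : ℚ) + 1 + i) = (m + k).factorial := by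
  induction k with
  | zero => simp
  | succ k ih =>
    rw [prod_range_succ, ← mul_assoc, ih, ← Nat.add_assoc, Nat.factorial_succ]
    push_cast; ring

theorem prod_desc (n k : ℕ) : ∏ i ∈ range k, ((n : ℚ) - i) = (n.choose k : ℚ) * k.factorial := by
  rcases le_or_gt k n with h | h
  · exact prod_choose n k h
  · rw [Nat.choose_eq_zero_of_lt h, Nat.cast_zero, zero_mul]
    exact prod_eq_zero (mem_range.2 h) (by ring)

theorem fa_one (n k : ℕ) : ((n : ℚ) + 2) * fa ((2 * n + 3) / 2) k = (-1 / 3 : ℚ) ^ k * (n.choose k : ℚ) *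
    (((n + 3 + 2 * k).choose (k + 1) : ℚ) - ((n + 3 + 2 * k).choose k : ℚ)) := by
  have h1 : ∏ i ∈ range k, ((5 / 2 + (k : ℚ) + i + (2 * n + 3) / 2) * (3 / 2 + i - (2 * n + 3) / 2)) =
      (∏ i ∈ range k, (((n + 3 + k : ℕ) : ℚ) + 1 + i)) * ((-1) ^ k * ∏ i ∈ range k, ((n : ℚ) - i)) := by
    rw [← card_range k, ← prod_const, card_range, ← prod_mul_distrib, ← prod_mul_distrib]
    refine prod_congr rfl fun i _ => ?_
    push_cast; ring
  have h2 := prod_asc (n + 3 + k) k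
  rw [show n + 3 + k + k = n + 3 + 2 * k by ring] at h2
  have f1 : ((n + 3 + k).factorial : ℚ) ≠ 0 := by exact_mod_cast (n + 3 + k).factorial_ne_zero
  have f2 : (k.factorial : ℚ) ≠ 0 := by exact_mod_cast k.factorial_ne_zero
  have f3 : ((k + 1).factorial : ℚ) ≠ 0 := by exact_mod_cast (k + 1).factorial_ne_zero
  have f4 : ((n + 2 + k).factorial : ℚ) ≠ 0 := by exact_mod_cast (n + 2 + k).factorial_ne_zero
  have g1 : ((n + 3 + 2 * k).choose (k + 1) : ℚ) = (n + 3 + 2 * k).factorial / ((k + 1).factorial * (n + 2 + k).factorial) := by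
    have h := Nat.choose_mul_factorial_mul_factorial (show k + 1 ≤ n + 3 + 2 * k by omega)
    rw [show n + 3 + 2 * k - (k + 1) = n + 2 + k by omega] at h
    rw [eq_div_iff (mul_ne_zero f3 f4), ← mul_assoc]; exact_mod_cast h
  have g2 : ((n + 3 + 2 * k).choose k : ℚ) = (n + 3 + 2 * k).factorial / (k.factorial * (n + 3 + k).factorial) := by
    have h := Nat.choose_mul_factorial_mul_factorial (show k ≤ n + 3 + 2 * k by omega)
    rw [show n + 3 + 2 * k - k = n + 3 + k by omega] at h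
    rw [eq_div_iff (mul_ne_zero f2 f1), ← mul_assoc]; exact_mod_cast h
  have h3 : ((n + 3 + k).factorial : ℚ) = (n + 3 + k) * (n + 2 + k).factorial := by
    rw [show n + 3 + k = (n + 2 + k) + 1 by ring, Nat.factorial_succ]; push_cast; ring
  have h4 : ((k + 1).factorial : ℚ) = (k + 1) * k.factorial := by
    rw [Nat.factorial_succ]; push_cast; ring
  have h5 : ∏ i ∈ range k, (((n + 3 + k : ℕ) : ℚ) + 1 + i) = (n + 3 + 2 * k).factorial / (n + 3 + k).factorial := by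
    rw [eq_div_iff f1, mul_comm]; exact h2
  have h6 : (-1 / 3 : ℚ) ^ k = (1 / 3) ^ k * (-1) ^ k := by rw [← mul_pow]; norm_num
  rw [fa, h1, prod_desc, h5, g1, g2, h6, h3, h4]
  have a1 : ((k : ℚ) + 1) ≠ 0 := by positivity
  have a2 : ((n : ℚ) + 3 + k) ≠ 0 := by positivity
  field_simp
  ring

theorem fa_two (N k : ℕ) (hk : k ≤ N) : ((N : ℚ) + 3) * fa (-((2 * N + 5) / 2)) k =
    (-1 / 3 : ℚ) ^ k * ((N - k).choose k : ℚ) * ((N + 3 + k).choose (k + 1) : ℚ) := by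
  have h1 : ∏ i ∈ range k, ((5 / 2 + (k : ℚ) + i + -((2 * N + 5) / 2)) * (3 / 2 + i - -((2 * N + 5) / 2))) =
      (∏ i ∈ range k, (((N + 3 : ℕ) : ℚ) + 1 + i)) * ((-1) ^ k * ∏ i ∈ range k, (((N - k : ℕ) : ℚ) - i)) := by
    rw [← card_range k, ← prod_const, card_range, ← prod_mul_distrib, ← prod_mul_distrib]
    refine prod_congr rfl fun i _ => ?_
    rw [Nat.cast_sub hk]
    push_cast; ring
  have h2 := prod_asc (N + 3) k
  have f1 : ((N + 3).factorial : ℚ) ≠ 0 := by exact_mod_cast (N + 3).factorial_ne_zero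
  have f2 : (k.factorial : ℚ) ≠ 0 := by exact_mod_cast k.factorial_ne_zero
  have f3 : ((k + 1).factorial : ℚ) ≠ 0 := by exact_mod_cast (k + 1).factorial_ne_zero
  have f4 : ((N + 2).factorial : ℚ) ≠ 0 := by exact_mod_cast (N + 2).factorial_ne_zero
  have g1 : ((N + 3 + k).choose (k + 1) : ℚ) = (N + 3 + k).factorial / ((k + 1).factorial * (N + 2).factorial) := by
    have h := Nat.choose_mul_factorial_mul_factorial (show k + 1 ≤ N + 3 + k by omega)
    rw [show N + 3 + k - (k + 1) = N + 2 by omega] at h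
    rw [eq_div_iff (mul_ne_zero f3 f4), ← mul_assoc]; exact_mod_cast h
  have h3 : ((N + 3).factorial : ℚ) = (N + 3) * (N + 2).factorial := by
    rw [show N + 3 = (N + 2) + 1 by ring, Nat.factorial_succ]; push_cast; ring
  have h5 : ∏ i ∈ range k, (((N + 3 : ℕ) : ℚ) + 1 + i) = (N + 3 + k).factorial / (N + 3).factorial := by
    rw [eq_div_iff f1, mul_comm]; exact h2
  have h6 : (-1 / 3 : ℚ) ^ k = (1 / 3) ^ k * (-1) ^ k := by rw [← mul_pow]; norm_num
  rw [fa, h1, prod_desc, h5, g1, h6, h3]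
  have a2 : ((N : ℚ) + 3) ≠ 0 := by positivity
  field_simp

/-- `(2m)! = 2^m m! (2m-1)!!` -/
theorem odd_prod (m : ℕ) : (2 ^ m * m.factorial : ℚ) * ∏ i ∈ range m, (2 * (i : ℚ) + 1) = (2 * m).factorial := by
  induction m with
  | zero => simp
  | succ m ih =>
    rw [prod_range_succ, show 2 * (m + 1) = 2 * m + 1 + 1 by ring, Nat.factorial_succ, Nat.factorial_succ,
      Nat.factorial_succ]
    push_cast
    rw [← ih, pow_succ]
    ring

theorem fa_zero (k : ℕ) : (1 / 48 : ℚ) ^ (k + 1) * ((4 * (k + 1)).choose (2 * (k + 1) + 1) : ℚ) *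
    ((2 * (k + 1)).choose (k + 1) : ℚ) = 1 / 6 * fa 0 k := by
  have hD1 := odd_prod (2 * k + 2)
  have hsplit1 : ∏ i ∈ range (2 * k + 2), (2 * (i : ℚ) + 1) =
      (∏ i ∈ range (k + 2), (2 * (i : ℚ) + 1)) * ∏ i ∈ range k, (2 * ((k + 2 + i : ℕ) : ℚ) + 1) := by
    rw [show 2 * k + 2 = k + 2 + k by ring, prod_range_add]
  have hsplit2 : ∏ i ∈ range (k + 2), (2 * (i : ℚ) + 1) =
      (∏ i ∈ range k, (2 * ((i + 1 : ℕ) : ℚ) + 1)) * (2 * k + 3) := by
    rw [show k + 2 = (k + 1) + 1 by ring, prod_range_succ, prod_range_succ']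
    push_cast; ring
  have h1 : (∏ i ∈ range k, ((5 / 2 + (k : ℚ) + i + 0) * (3 / 2 + i - 0))) * 4 ^ k =
      (∏ i ∈ range k, (2 * ((k + 2 + i : ℕ) : ℚ) + 1)) * (∏ i ∈ range k, (2 * ((i + 1 : ℕ) : ℚ) + 1)) := by
    rw [← card_range k, ← prod_const (4 : ℚ), card_range, ← prod_mul_distrib, ← prod_mul_distrib]
    refine prod_congr rfl fun i _ => ?_
    push_cast; ring
  set P := ∏ i ∈ range k, ((5 / 2 + (k : ℚ) + i + 0) * (3 / 2 + i - 0)) with hP
  rw [hsplit1, hsplit2] at hD1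
  have h2 : (2 ^ (2 * k + 2) * (2 * k + 2).factorial : ℚ) * (P * 4 ^ k * (2 * k + 3)) = (2 * (2 * k + 2)).factorial := by
    rw [h1, ← hD1]; ring
  have e1 : 2 * (2 * k + 2) = 4 * (k + 1) := by ring
  rw [e1] at h2
  have f1 : ((2 * k + 3).factorial : ℚ) ≠ 0 := by exact_mod_cast (2 * k + 3).factorial_ne_zero
  have f2 : (k.factorial : ℚ) ≠ 0 := by exact_mod_cast k.factorial_ne_zero
  have f3 : ((k + 1).factorial : ℚ) ≠ 0 := by exact_mod_cast (k + 1).factorial_ne_zero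
  have f4 : ((2 * k + 1).factorial : ℚ) ≠ 0 := by exact_mod_cast (2 * k + 1).factorial_ne_zero
  have g1 : ((4 * (k + 1)).choose (2 * (k + 1) + 1) : ℚ) = (4 * (k + 1)).factorial / ((2 * k + 3).factorial * (2 * k + 1).factorial) := by
    have h := Nat.choose_mul_factorial_mul_factorial (show 2 * (k + 1) + 1 ≤ 4 * (k + 1) by omega)
    rw [show 4 * (k + 1) - (2 * (k + 1) + 1) = 2 * k + 1 by omega, show 2 * (k + 1) + 1 = 2 * k + 3 by ring] at h
    rw [show 2 * (k + 1) + 1 = 2 * k + 3 by ring, eq_div_iff (mul_ne_zero f1 f4), ← mul_assoc]; exact_mod_cast h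
  have g2 : ((2 * (k + 1)).choose (k + 1) : ℚ) = (2 * k + 2).factorial / ((k + 1).factorial * (k + 1).factorial) := by
    have h := Nat.choose_mul_factorial_mul_factorial (show k + 1 ≤ 2 * (k + 1) by omega)
    rw [show 2 * (k + 1) - (k + 1) = k + 1 by omega, show 2 * (k + 1) = 2 * k + 2 by ring] at h
    rw [show 2 * (k + 1) = 2 * k + 2 by ring, eq_div_iff (mul_ne_zero f3 f3), ← mul_assoc]; exact_mod_cast h
  have h3 : ((2 * k + 3).factorial : ℚ) = (2 * k + 3) * (2 * k + 2).factorial := by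
    rw [show 2 * k + 3 = (2 * k + 2) + 1 by ring, Nat.factorial_succ]; push_cast; ring
  have h4 : ((2 * k + 2).factorial : ℚ) = (2 * k + 2) * (2 * k + 1).factorial := by
    rw [show 2 * k + 2 = (2 * k + 1) + 1 by ring, Nat.factorial_succ]; push_cast; ring
  have h5 : ((k + 1).factorial : ℚ) = (k + 1) * k.factorial := by
    rw [Nat.factorial_succ]; push_cast; ring
  rw [fa, ← hP, g1, g2, ← h2, h3, h4, h5]
  have a1 : ((k : ℚ) + 1) ≠ 0 := by positivity
  have a2 : (2 * (k : ℚ) + 3) ≠ 0 := by positivity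
  have a3 : (2 * (k : ℚ) + 2) ≠ 0 := by positivity
  have e4 : (4 : ℚ) ^ k = 2 ^ (2 * k) := by rw [pow_mul]; norm_num
  have e48 : (1 / 48 : ℚ) ^ (k + 1) = (1 / 3) ^ k * (1 / 16) ^ k * (1 / 48) := by
    rw [pow_succ, ← mul_pow]; norm_num
  have e16 : (1 / 16 : ℚ) ^ k * (2 ^ (2 * k + 2) * 4 ^ k) = 4 := by
    have : (2 : ℚ) ^ (2 * k + 2) = 4 ^ k * 4 := by rw [pow_add, pow_mul]; norm_num
    rw [this, show (1 / 16 : ℚ) ^ k * (4 ^ k * 4 * 4 ^ k) = ((1 / 16) * (4 * 4)) ^ k * 4 by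
      rw [mul_pow, mul_pow]; ring]
    norm_num
  rw [e48]
  field_simp
  have e17 : (1 / 16 : ℚ) ^ k * 2 ^ (k * 2) * 4 ^ k = 1 := by
    rw [pow_mul', ← mul_pow, ← mul_pow]; norm_num
  linear_combination (48 * P) * e17

theorem sum_one (n : ℕ) (hn : n % 3 ≠ 0) : ∑ k ∈ range (2 * n + 2), fa ((2 * n + 3) / 2) k = 0 := by
  have a1 : ((n : ℚ) + 2) ≠ 0 := by positivity
  apply mul_left_cancel₀ a1
  rw [mul_zero, mul_sum, sum_congr rfl fun k _ => fa_one n k, ← van1 n hn]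
  refine (sum_subset (range_subset_range.2 (by omega)) fun k _ hk => ?_).symm
  rw [mem_range, not_lt] at hk
  rw [Nat.choose_eq_zero_of_lt (by omega)]
  push_cast; ring

theorem sum_two (n : ℕ) : ∑ k ∈ range (2 * n + 2), fa (-3 * ((2 * n + 3) / 2)) k = 0 := by
  obtain ⟨N, hN⟩ : ∃ N, N = 3 * n + 2 := ⟨_, rfl⟩
  have a1 : ((N : ℚ) + 3) ≠ 0 := by positivity
  have e : (-3 * ((2 * n + 3) / 2) : ℚ) = -((2 * N + 5) / 2) := by rw [hN]; push_cast; ring
  apply mul_left_cancel₀ a1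
  rw [e, mul_zero, mul_sum, sum_congr rfl fun k hk => fa_two N k (by have := mem_range.1 hk; omega),
    ← van2 N (by omega)]
  refine sum_subset (range_subset_range.2 (by omega)) fun k _ hk => ?_
  rw [mem_range, not_lt] at hk
  rw [Nat.choose_eq_zero_of_lt (show N - k < k by omega)]
  push_cast; ring

/-- Q1 -/
theorem AA_zero (h3 : 3 < p) : I p 2 (∑ k ∈ range p, (1 / 48 : ℚ) ^ k * ((4 * k).choose (2 * k + 1) : ℚ) *
    ((2 * k).choose k : ℚ)) := by
  obtain ⟨n, hn⟩ : ∃ n, p = 2 * n + 3 := by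
    rcases hp.out.eq_two_or_odd with h | h
    · omega
    · exact ⟨(p - 3) / 2, by omega⟩
  have hpq : (p : ℚ) = 2 * n + 3 := by exact_mod_cast hn
  have hn3 : n % 3 ≠ 0 := by
    intro h
    have h1 : 3 ∣ p := by omega
    have := (Nat.prime_dvd_prime_iff_eq Nat.prime_three hp.out).1 h1
    omega
  have u2 : U p (2 : ℚ) := by exact_mod_cast U_nat (p := p) (k := 2) (by norm_num) (by omega)
  have u4 : U p (4 : ℚ) := by exact_mod_cast U_nat (p := p) (k := 4) (by norm_num) (by omega)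
  have hL : Lin p (fun s => ∑ k ∈ range (2 * n + 2), fa s k) :=
    Lin.sum (f := fun k s => fa s k) fun k hk => lin_fa h3 (by have := mem_range.1 hk; omega)
  obtain ⟨d, hd, h⟩ := hL
  have hu : I p 1 ((p : ℚ) / 2) := by rw [div_eq_mul_inv]; exact (I_p (p := p)).mulR u2.2.2
  have m3 : (-3 : ℚ) ∈ Zp p := neg_mem (by exact_mod_cast nat_mem (p := p) 3)
  have m3' : (3 : ℚ) ∈ Zp p := by exact_mod_cast nat_mem (p := p) 3
  have h1 := h _ hu
  have h2 := h _ (hu.mulL m3)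
  have e1 : (p : ℚ) / 2 = (2 * n + 3) / 2 := by rw [hpq]
  beta_reduce at h1 h2
  have s1 : ∑ k ∈ range (2 * n + 2), fa ((p : ℚ) / 2) k = 0 := by rw [e1]; exact sum_one n hn3
  have s2 : ∑ k ∈ range (2 * n + 2), fa (-3 * ((p : ℚ) / 2)) k = 0 := by rw [e1]; exact sum_two n
  rw [s1] at h1
  rw [s2] at h2
  have h4 := (((EQ.refl (k := 2) m3').mul h1).add h2).symm
  have h5 : I p 2 (4 * ∑ k ∈ range (2 * n + 2), fa 0 k) := by
    have := h4.2.2
    have e : 3 * (∑ k ∈ range (2 * n + 2), fa 0 k + d * ((p : ℚ) / 2)) +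
        (∑ k ∈ range (2 * n + 2), fa 0 k + d * (-3 * ((p : ℚ) / 2))) - (3 * 0 + 0) =
        4 * ∑ k ∈ range (2 * n + 2), fa 0 k := by ring
    rwa [e] at this
  have h6 := u4.cancel h5
  have e2 : ∑ k ∈ range p, (1 / 48 : ℚ) ^ k * ((4 * k).choose (2 * k + 1) : ℚ) * ((2 * k).choose k : ℚ) =
      1 / 6 * ∑ k ∈ range (2 * n + 2), fa 0 k := by
    rw [hn, show 2 * n + 3 = (2 * n + 2) + 1 by ring, sum_range_succ', mul_sum]
    simp only [fa_zero]
    simp
  rw [e2]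
  refine h6.mulL ?_
  have : (1 / 6 : ℚ) = 2⁻¹ * 3⁻¹ := by norm_num
  rw [this]
  have u3 : U p (3 : ℚ) := by exact_mod_cast U_nat (p := p) (k := 3) (by norm_num) (by omega)
  exact mul_mem u2.2.2 u3.2.2

end Pool.Agent.K3h68.FE
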