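import Mathlib

set_option autoImplicit false

/-!
MP_37e900_nt: two evaluations of a terminating `2F1(4/3)` by certificates.
-/

namespace Pool.Agent.K3h68.FE

open Finset

/-- `(-N/2)_k ((1-N)/2)_k / ((-2N)_k k!) (4/3)^k` -/
def TN (N k : ℕ) : ℚ := ∏ i ∈ range k,
  (-(((N : ℚ) - 2 * i) * (N - 2 * i - 1)) / (3 * (2 * N - i) * (1 + i)))

theorem TN_zero_right (N : ℕ) : TN N 0 = 1 := by simp [TN]

theorem TN_succ (N k : ℕ) : TN N (k + 1) = TN N k *
    (-(((N : ℚ) - 2 * k) * (N - 2 * k - 1)) / (3 * (2 * N - k) * (1 + k))) := by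
  unfold TN
  rw [prod_range_succ]

theorem TN_vanish {N k : ℕ} (h : N < 2 * k) : TN N k = 0 := by
  unfold TN
  refine prod_eq_zero (i := N / 2) (mem_range.2 (by omega)) ?_
  rcases Nat.even_or_odd' N with ⟨c, hc | hc⟩
  · have : N / 2 = c := by omega
    rw [this, hc]; push_cast; ring_nf
  · have : N / 2 = c := by omega
    rw [this, hc]; push_cast; ring_nf

theorem R1 (N k : ℕ) (h : k < 2 * N) :
    TN N (k + 1) * (3 * (2 * N - k) * (k + 1)) = -((N - 2 * k) * (N - 2 * k - 1)) * TN N k := by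
  have h1 : (k : ℚ) < 2 * N := by exact_mod_cast h
  have h3 : (3 * (2 * (N : ℚ) - k)) ≠ 0 := by
    have : 0 < 3 * (2 * (N : ℚ) - k) := by linarith
    exact this.ne'
  have h4 : (1 + (k : ℚ)) ≠ 0 := by positivity
  rw [TN_succ]
  have h5 := div_mul_cancel₀ (-(((N : ℚ) - 2 * k) * (N - 2 * k - 1))) (mul_ne_zero h3 h4)
  linear_combination (TN N k) * h5

theorem R2 (N k : ℕ) (h : k ≤ 2 * N) :
    6 * (2 * N + 1) * (k + 1) * TN (N + 1) (k + 1) = -((N - 2 * k) * (2 * N + 1 - k)) * TN N k := by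
  induction k with
  | zero =>
    rw [TN_succ, TN_zero_right, TN_zero_right]
    have h3 : ((N : ℚ) + 1) ≠ 0 := by positivity
    push_cast
    simp only [mul_zero, sub_zero, add_zero, mul_one, zero_add, one_mul]
    field_simp
    ring
  | succ k ih =>
    have ih' := ih (by omega)
    have r1 := R1 N k (by omega)
    have hk : (k : ℚ) + 1 ≤ 2 * N := by exact_mod_cast h
    have r2 := R1 (N + 1) (k + 1) (by omega)
    push_cast at r2
    have h8 : (2 * (N : ℚ) + 1 - k) ≠ 0 := by
      have : 0 < 2 * (N : ℚ) + 1 - k := by linarith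
      exact this.ne'
    have h10 : ((k : ℚ) + 1) ≠ 0 := by positivity
    apply mul_left_cancel₀ (mul_ne_zero h8 h10)
    push_cast
    linear_combination (2 * (2 * (N : ℚ) + 1) * (k + 1)) * r2 -
      ((1 / 3) * (N - 1 - 2 * k) * (N - 2 - 2 * k)) * ih' +
      ((1 / 3) * (2 * (N : ℚ) + 1 - k) * (N - 2 * k - 2)) * r1

theorem P1 (N K : ℕ) (h : K ≤ N) :
    ∑ k ∈ range (K + 1), (2 * (2 * (N : ℚ) + 1) * TN (N + 1) k - (3 * N + 2) * TN N k) =
      (N - 2 * K) * TN N K := by
  induction K with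
  | zero =>
    simp only [zero_add, sum_range_one, TN_zero_right]
    push_cast
    ring
  | succ K ih =>
    rw [sum_range_succ, ih (by omega)]
    have r1 := R1 N K (by omega)
    have r2 := R2 N K (by omega)
    have h1 : (3 * ((K : ℚ) + 1)) ≠ 0 := by positivity
    apply mul_left_cancel₀ h1
    push_cast
    linear_combination r2 - 2 * r1

theorem P2 (N K : ℕ) (h : K ≤ N) :
    ∑ k ∈ range (K + 1), (2 * (2 * (N : ℚ) + 1) * ((k + N + 2) * TN (N + 1) k) -
      (3 * N + 4) * ((k + N + 1) * TN N k)) =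
      (N + 3 + K) * (N - 2 * K) * TN N K := by
  induction K with
  | zero =>
    simp only [zero_add, sum_range_one, TN_zero_right]
    push_cast
    ring
  | succ K ih =>
    rw [sum_range_succ, ih (by omega)]
    have r1 := R1 N K (by omega)
    have r2 := R2 N K (by omega)
    have h1 : (3 * ((K : ℚ) + 1)) ≠ 0 := by positivity
    apply mul_left_cancel₀ h1
    push_cast
    linear_combination (K + N + 3 : ℚ) * r2 - 2 * (K + N + 3 : ℚ) * r1

theorem S_succ (N : ℕ) : 2 * (2 * (N : ℚ) + 1) * ∑ k ∈ range (N + 1 + 1), TN (N + 1) k =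
    (3 * N + 2) * ∑ k ∈ range (N + 1), TN N k := by
  have h := P1 N N le_rfl
  rw [sum_sub_distrib, ← mul_sum, ← mul_sum] at h
  rw [sum_range_succ, TN_vanish (show N + 1 < 2 * (N + 1) by omega), add_zero]
  have h0 : ((N : ℚ) - 2 * N) * TN N N = 0 := by
    rcases Nat.eq_zero_or_pos N with h | h
    · subst h; simp
    · rw [TN_vanish (by omega), mul_zero]
  linear_combination h + h0

theorem W_succ (N : ℕ) : 2 * (2 * (N : ℚ) + 1) *
      ∑ k ∈ range (N + 1 + 1), ((k : ℚ) + (N + 1 : ℕ) + 1) * TN (N + 1) k =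
    (3 * N + 4) * ∑ k ∈ range (N + 1), ((k : ℚ) + N + 1) * TN N k := by
  have h := P2 N N le_rfl
  rw [sum_sub_distrib, ← mul_sum, ← mul_sum] at h
  rw [sum_range_succ, TN_vanish (show N + 1 < 2 * (N + 1) by omega), mul_zero, add_zero]
  have h0 : ((N : ℚ) - 2 * N) * TN N N = 0 := by
    rcases Nat.eq_zero_or_pos N with h | h
    · subst h; simp
    · rw [TN_vanish (by omega), mul_zero]
  have e1 : ∑ k ∈ range (N + 1), ((k : ℚ) + (N + 1 : ℕ) + 1) * TN (N + 1) k =
      ∑ k ∈ range (N + 1), ((k : ℚ) + N + 2) * TN (N + 1) k := by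
    refine sum_congr rfl fun k _ => ?_
    push_cast
    ring
  rw [e1]
  linear_combination h + (N + 3 + N : ℚ) * h0

/-- `∑_k T_N(k)` in closed form -/
theorem evS (N : ℕ) : ∑ k ∈ range (N + 1), TN N k =
    ∏ i ∈ range N, ((3 * (i : ℚ) + 2) / (4 * i + 2)) := by
  induction N with
  | zero => simp [TN]
  | succ N ih =>
    have h := S_succ N
    rw [ih] at h
    have h1 : 2 * (2 * (N : ℚ) + 1) ≠ 0 := by positivity
    apply mul_left_cancel₀ h1
    rw [h, prod_range_succ]
    have h2 : (4 * (N : ℚ) + 2) ≠ 0 := by positivity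
    field_simp
    ring

/-- `∑_k (k+N+1) T_N(k)` in closed form -/
theorem evW (N : ℕ) : ∑ k ∈ range (N + 1), ((k : ℚ) + N + 1) * TN N k =
    ∏ i ∈ range N, ((3 * (i : ℚ) + 4) / (4 * i + 2)) := by
  induction N with
  | zero => simp [TN]
  | succ N ih =>
    have h := W_succ N
    rw [ih] at h
    have h1 : 2 * (2 * (N : ℚ) + 1) ≠ 0 := by positivity
    apply mul_left_cancel₀ h1
    rw [h, prod_range_succ]
    have h2 : (4 * (N : ℚ) + 2) ≠ 0 := by positivity
    field_simp
    ring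

/-- the sum may be taken over any range containing the nonzero terms -/
theorem sum_ext (N K : ℕ) (h : N < 2 * K) (f : ℕ → ℚ) :
    ∑ k ∈ range K, f k * TN N k = ∑ k ∈ range (N + 1), f k * TN N k := by
  rcases le_total K (N + 1) with hK | hK
  · refine sum_subset (range_subset_range.2 hK) fun k _ hk => ?_
    rw [mem_range, not_lt] at hk
    rw [TN_vanish (by omega), mul_zero]
  · refine (sum_subset (range_subset_range.2 hK) fun k _ hk => ?_).symm
    rw [mem_range, not_lt] at hk
    rw [TN_vanish (by omega), mul_zero]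

end Pool.Agent.K3h68.FE
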