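import Mathlib
import Pool.Agent.R488.Cub.Facts
import Pool.Agent.K3h68.FE.Exact

set_option autoImplicit false

/-!
MP_37e900_nt, Q2: the two families `∑ tn u k`, `∑ (k+1/2+2u) tn u k` and their values at
`p/4` and `3p/4`.
-/

namespace Pool.Agent.K3h68.FE

open Finset Pool.Agent.R439.PL Pool.Agent.R439.PL.S4 Pool.Agent.R488.Tri Pool.Agent.R488.Cub

variable {p : ℕ} [hp : Fact p.Prime]

def tn (u : ℚ) (k : ℕ) : ℚ := (4 / 3) ^ k * ∏ i ∈ range k,
  ((1 / 4 + i - u) * (3 / 4 + i - u) * ((1 + i - 4 * u) * (1 + i))⁻¹)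

def UU (p : ℕ) (u : ℚ) : ℚ := ∑ k ∈ range p, tn u k

def GG (p : ℕ) (u : ℚ) : ℚ := ∑ k ∈ range p, ((k : ℚ) + 1 / 2 + 2 * u) * tn u k

theorem Us (h3 : 3 < p) : U p (2 : ℚ) ∧ U p (3 : ℚ) ∧ U p (4 : ℚ) := by
  refine ⟨?_, ?_, ?_⟩
  · exact_mod_cast U_nat (p := p) (k := 2) (by norm_num) (by omega)
  · exact_mod_cast U_nat (p := p) (k := 3) (by norm_num) (by omega)
  · exact_mod_cast U_nat (p := p) (k := 4) (by norm_num) (by
      rcases Nat.lt_or_ge 4 p with h | h
      · exact h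
      · exfalso
        have : p = 4 := by omega
        have h2 := hp.out
        rw [this] at h2
        exact absurd h2 (by norm_num))

theorem lin_tn (h3 : 3 < p) {k : ℕ} (hk : k < p) : Lin p (fun u => tn u k) := by
  obtain ⟨u2, u3, u4⟩ := Us h3
  have m14 : (1 / 4 : ℚ) ∈ Zp p := by rw [one_div]; exact u4.2.2
  have m34 : (3 / 4 : ℚ) ∈ Zp p := by rw [div_eq_mul_inv]; exact mul_mem u3.2.1 u4.2.2
  have m43 : (4 / 3 : ℚ) ∈ Zp p := by rw [div_eq_mul_inv]; exact mul_mem u4.2.1 u3.2.2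
  have h1 : Lin p (fun u => (4 / 3 : ℚ) ^ k + 0 * u) := Lin.affine (pow_mem m43 _) (zero_mem _)
  have h2 : Lin p (fun u : ℚ => ∏ i ∈ range k,
      (((1 / 4 + (i : ℚ)) + (-1) * u) * ((3 / 4 + (i : ℚ)) + (-1) * u) *
        (((1 + (i : ℚ)) + (-4) * u) * ((1 + (i : ℚ)) + 0 * u))⁻¹)) := by
    refine Lin.prod (f := fun (i : ℕ) (u : ℚ) => (((1 / 4 + (i : ℚ)) + (-1) * u) * ((3 / 4 + (i : ℚ)) + (-1) * u) *
        (((1 + (i : ℚ)) + (-4) * u) * ((1 + (i : ℚ)) + 0 * u))⁻¹)) fun i hi => ?_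
    have hi' := mem_range.1 hi
    have ui : U p ((1 : ℚ) + i) := by
      have := U_nat (p := p) (k := i + 1) (by omega) (by omega)
      push_cast at this
      rwa [add_comm] at this
    refine ((Lin.affine (add_mem m14 (nat_mem i)) (neg_mem (one_mem _))).mul
      (Lin.affine (add_mem m34 (nat_mem i)) (neg_mem (one_mem _)))).mul ?_
    refine Lin.inv ((Lin.affine ui.2.1 (neg_mem u4.2.1)).mul (Lin.affine ui.2.1 (zero_mem _))) ?_
    rw [mul_zero, mul_zero, add_zero]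
    exact ui.mul ui
  have h5 := h1.mul h2
  have e : (fun u : ℚ => ((4 / 3 : ℚ) ^ k + 0 * u) * (∏ i ∈ range k,
      (((1 / 4 + (i : ℚ)) + (-1) * u) * ((3 / 4 + (i : ℚ)) + (-1) * u) *
        (((1 + (i : ℚ)) + (-4) * u) * ((1 + (i : ℚ)) + 0 * u))⁻¹))) = fun u => tn u k := by
    funext u
    rw [tn, zero_mul, add_zero]
    congr 1
    refine prod_congr rfl fun i _ => ?_
    congr 1
    · ring
    · congr 1; ring
  rwa [e] at h5

theorem lin_UU (h3 : 3 < p) : Lin p (UU p) := by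
  have : UU p = fun u => ∑ k ∈ range p, tn u k := by funext u; rfl
  rw [this]
  exact Lin.sum (f := fun k u => tn u k) fun k hk => lin_tn h3 (mem_range.1 hk)

theorem lin_GG (h3 : 3 < p) : Lin p (GG p) := by
  obtain ⟨u2, u3, u4⟩ := Us h3
  have m12 : (1 / 2 : ℚ) ∈ Zp p := by rw [one_div]; exact u2.2.2
  have : GG p = fun u => ∑ k ∈ range p, (((k : ℚ) + 1 / 2) + 2 * u) * tn u k := by funext u; rfl
  rw [this]
  exact Lin.sum (f := fun (k : ℕ) (u : ℚ) => (((k : ℚ) + 1 / 2) + 2 * u) * tn u k) fun k hk =>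
    (Lin.affine (add_mem (nat_mem k) m12) u2.2.1).mul (lin_tn h3 (mem_range.1 hk))

/-- interpolation from `u`, `3u` -/
theorem interp3 {f : ℚ → ℚ} (h : Lin p f) (u3 : U p (3 : ℚ)) {u : ℚ} (hu : I p 1 u) :
    EQ p 2 (2 * f 0) (3 * f u - f (3 * u)) := by
  obtain ⟨d, hd, h⟩ := h
  have h1 := h u hu
  have h2 := h (3 * u) (hu.mulL u3.2.1)
  have h3 := (((EQ.refl (k := 2) u3.2.1).mul h1).sub h2).symm
  have e : 3 * (f 0 + d * u) - (f 0 + d * (3 * u)) = 2 * f 0 := by ring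
  rwa [e] at h3

theorem tn_TN (N k : ℕ) : tn ((2 * N + 1) / 4) k = TN N k := by
  rw [tn, TN, ← card_range k, ← prod_const, card_range, ← prod_mul_distrib]
  refine prod_congr rfl fun i _ => ?_
  have e1 : (1 / 4 + (i : ℚ) - (2 * N + 1) / 4) * (3 / 4 + i - (2 * N + 1) / 4) =
      (N - 2 * i) * (N - 2 * i - 1) / 4 := by ring
  have e2 : (1 + (i : ℚ) - 4 * ((2 * N + 1) / 4)) * (1 + i) = -((2 * N - i) * (1 + i)) := by ring
  rw [e1, e2]
  have e3 : (3 * (2 * (N : ℚ) - i) * (1 + i)) = 3 * ((2 * N - i) * (1 + i)) := by ring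
  rw [e3]
  rcases eq_or_ne ((2 * (N : ℚ) - i) * (1 + i)) 0 with h | h
  · rw [h]; simp
  · field_simp

/-- values at `m p / 4`, where `m p = 2 N + 1`, `m ≤ 3` -/
theorem UU_val {N m : ℕ} (h : m * p = 2 * N + 1) (hm : m ≤ 3) : UU p ((m * p) / 4) =
    ∏ i ∈ range N, ((3 * (i : ℚ) + 2) / (4 * i + 2)) := by
  have hq : (m * p : ℚ) = 2 * N + 1 := by exact_mod_cast h
  rw [hq, UU, ← evS]
  have h1 := sum_ext N p (by nlinarith) (fun _ => 1)
  simp only [one_mul] at h1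
  rw [← h1]
  exact sum_congr rfl fun k _ => tn_TN N k

theorem GG_val {N m : ℕ} (h : m * p = 2 * N + 1) (hm : m ≤ 3) : GG p ((m * p) / 4) =
    ∏ i ∈ range N, ((3 * (i : ℚ) + 4) / (4 * i + 2)) := by
  have hq : (m * p : ℚ) = 2 * N + 1 := by exact_mod_cast h
  rw [hq, GG, ← evW]
  rw [← sum_ext N p (by nlinarith) (fun k => (k : ℚ) + N + 1)]
  refine sum_congr rfl fun k _ => ?_
  rw [tn_TN N k]
  ring

theorem tn_zero (k : ℕ) : tn 0 k = (1 / 48 : ℚ) ^ k * ((4 * k).choose (2 * k) : ℚ) * ((2 * k).choose k : ℚ) := by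
  induction k with
  | zero => simp [tn]
  | succ k ih =>
    have h1 : tn 0 (k + 1) = tn 0 k * (4 / 3 * ((1 / 4 + (k : ℚ)) * (3 / 4 + (k : ℚ)) *
        ((1 + (k : ℚ)) * (1 + (k : ℚ)))⁻¹)) := by
      rw [tn, tn, prod_range_succ, pow_succ, mul_zero, sub_zero, sub_zero, sub_zero]; ring
    have g : ∀ k : ℕ, ((4 * k).choose (2 * k) : ℚ) * ((2 * k).choose k : ℚ) =
        (4 * k).factorial / ((2 * k).factorial * (k.factorial * k.factorial)) := by
      intro k
      have f2 : (k.factorial : ℚ) ≠ 0 := by exact_mod_cast k.factorial_ne_zero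
      have f4 : ((2 * k).factorial : ℚ) ≠ 0 := by exact_mod_cast (2 * k).factorial_ne_zero
      have h1 := Nat.choose_mul_factorial_mul_factorial (show 2 * k ≤ 4 * k by omega)
      have h2 := Nat.choose_mul_factorial_mul_factorial (show k ≤ 2 * k by omega)
      rw [show 4 * k - 2 * k = 2 * k by omega] at h1
      rw [show 2 * k - k = k by omega] at h2
      rw [eq_div_iff (mul_ne_zero f4 (mul_ne_zero f2 f2))]
      have h1' : ((4 * k).choose (2 * k) : ℚ) * (2 * k).factorial * (2 * k).factorial = (4 * k).factorial := by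
        exact_mod_cast h1
      have h2' : ((2 * k).choose k : ℚ) * k.factorial * k.factorial = (2 * k).factorial := by
        exact_mod_cast h2
      rw [← h1', ← h2']; ring
    rw [h1, ih, mul_assoc ((1 / 48 : ℚ) ^ k), g k, mul_assoc ((1 / 48 : ℚ) ^ (k + 1)), g (k + 1)]
    have h2 : ((4 * (k + 1)).factorial : ℚ) = (4 * k + 4) * (4 * k + 3) * (4 * k + 2) * (4 * k + 1) * (4 * k).factorial := by
      rw [show 4 * (k + 1) = 4 * k + 1 + 1 + 1 + 1 by ring, Nat.factorial_succ, Nat.factorial_succ, Nat.factorial_succ,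
        Nat.factorial_succ]
      push_cast; ring
    have h3 : ((2 * (k + 1)).factorial : ℚ) = (2 * k + 2) * (2 * k + 1) * (2 * k).factorial := by
      rw [show 2 * (k + 1) = 2 * k + 1 + 1 by ring, Nat.factorial_succ, Nat.factorial_succ]
      push_cast; ring
    have h4 : ((k + 1).factorial : ℚ) = (k + 1) * k.factorial := by rw [Nat.factorial_succ]; push_cast; ring
    have a1 : (k : ℚ) + 1 ≠ 0 := by positivity
    have a2 : (1 : ℚ) + k ≠ 0 := by positivity
    have a3 : (k.factorial : ℚ) ≠ 0 := by exact_mod_cast k.factorial_ne_zero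
    have a4 : ((2 * k).factorial : ℚ) ≠ 0 := by exact_mod_cast (2 * k).factorial_ne_zero
    have a5 : (2 * (k : ℚ) + 1) ≠ 0 := by positivity
    rw [h2, h3, h4, pow_succ]
    field_simp
    ring

end Pool.Agent.K3h68.FE
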