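import Mathlib
import Pool.Agent.R488.Nin.Main
import Pool.Agent.R488.Cub.JSum

set_option autoImplicit false

/-!
MP_37e900_nt: products `∏ (3i+c)/(4i+2)` which are divisible by `p`, modulo `p^2`.
-/

namespace Pool.Agent.K3h68.FE

open Finset Pool.Agent.R439.PL Pool.Agent.R439.PL.S4 Pool.Agent.R488.Tri Pool.Agent.R488.Cub Pool.Agent.R488.Nin

variable {p : ℕ} [hp : Fact p.Prime]

theorem fac_prod (m : ℕ) : ∏ i ∈ range m, ((i : ℚ) + 1) = m.factorial := by
  rw [← prod_range_add_one_eq_factorial]; push_cast; rfl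

theorem desc_fac (m : ℕ) : ∏ i ∈ range m, ((m : ℚ) - i) = m.factorial := by
  rw [prod_choose m m le_rfl, Nat.choose_self, Nat.cast_one, one_mul]

/-- block of positive multiples of `c` -/
theorem block {c s : ℚ} (hc : c ∈ Zp p) (hs : I p 1 s) (m : ℕ) :
    EQ p 1 (∏ i ∈ range m, (s + c * ((i : ℚ) + 1))) (c ^ m * m.factorial) := by
  have h : EQ p 1 (∏ i ∈ range m, (s + c * ((i : ℚ) + 1))) (∏ i ∈ range m, (c * ((i : ℚ) + 1))) := by
    refine EQ.prod fun i _ => ?_
    have m1 : c * ((i : ℚ) + 1) ∈ Zp p := mul_mem hc (add_mem (nat_mem i) (one_mem _))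
    refine ⟨add_mem hs.mem m1, m1, ?_⟩
    have e : s + c * ((i : ℚ) + 1) - c * (i + 1) = s := by ring
    rw [e]; exact hs
  rwa [prod_mul_distrib, fac_prod, prod_const, card_range] at h

/-- block of descending multiples -/
theorem block' {c s : ℚ} (hc : c ∈ Zp p) (hs : I p 1 s) (m : ℕ) :
    EQ p 1 (∏ i ∈ range m, (s + c * ((m : ℚ) - i))) (c ^ m * m.factorial) := by
  have h : EQ p 1 (∏ i ∈ range m, (s + c * ((m : ℚ) - i))) (∏ i ∈ range m, (c * ((m : ℚ) - i))) := by
    refine EQ.prod fun i _ => ?_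
    have m1 : c * ((m : ℚ) - i) ∈ Zp p := mul_mem hc (sub_mem (nat_mem m) (nat_mem i))
    refine ⟨add_mem hs.mem m1, m1, ?_⟩
    have e : s + c * ((m : ℚ) - i) - c * (m - i) = s := by ring
    rw [e]; exact hs
  rwa [prod_mul_distrib, desc_fac, prod_const, card_range] at h

theorem fermat1 {x : ℕ} (h0 : 0 < x) (h1 : x < p) : EQ p 1 ((x : ℚ) ^ (p - 1)) 1 := by
  have h := Pool.Agent.R488.Cub.JSm.fermat (p := p) x
  have ux := U_nat (p := p) h0 h1
  have hp1 := hp.out.two_le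
  have e : (x : ℚ) ^ p = x * x ^ (p - 1) := by
    rw [← pow_succ']; congr 1; omega
  rw [e] at h
  refine (EQ_cancel ux (one_mem _) (pow_mem ux.2.1 _) ?_).symm
  rwa [mul_one]

/-- the denominators: `∏_{i<n} (4i+2) = (2n)!/n!` -/
theorem den_prod (n : ℕ) : (∏ i ∈ range n, (4 * (i : ℚ) + 2)) * n.factorial = (2 * n).factorial := by
  induction n with
  | zero => simp
  | succ n ih =>
    rw [prod_range_succ, show 2 * (n + 1) = 2 * n + 1 + 1 by ring, Nat.factorial_succ, Nat.factorial_succ,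
      Nat.factorial_succ]
    push_cast
    rw [← ih]; ring

theorem den_split (n : ℕ) : ∏ i ∈ range (3 * n + 1), (4 * (i : ℚ) + 2) =
    (∏ i ∈ range n, (4 * (i : ℚ) + 2)) * (4 * n + 2) * ∏ i ∈ range (2 * n), ((4 * n + 2) + 4 * ((i : ℚ) + 1)) := by
  rw [show 3 * n + 1 = n + 1 + 2 * n by ring, prod_range_add, prod_range_succ]
  congr 1
  refine prod_congr rfl fun i _ => ?_
  push_cast; ring

theorem num_split1 (c e h : ℕ) : ∏ i ∈ range (e + 1 + h), (3 * (i : ℚ) + c) =
    (∏ i ∈ range e, ((3 * (e : ℚ) + c) + -3 * ((e : ℚ) - i))) * (3 * e + c) *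
      ∏ i ∈ range h, ((3 * (e : ℚ) + c) + 3 * ((i : ℚ) + 1)) := by
  rw [prod_range_add, prod_range_succ]
  congr 1
  · congr 1
    refine prod_congr rfl fun i _ => ?_
    ring
  · refine prod_congr rfl fun i _ => ?_
    push_cast; ring

theorem num_split3 (c e h m : ℕ) : ∏ i ∈ range (e + 1 + m + 1 + h), (3 * (i : ℚ) + c) =
    (∏ i ∈ range e, ((3 * (e : ℚ) + c) + -3 * ((e : ℚ) - i))) * (3 * e + c) *
      (∏ i ∈ range m, ((3 * (e : ℚ) + c) + 3 * ((i : ℚ) + 1))) * (3 * (e + 1 + m) + c) *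
      ∏ i ∈ range h, ((3 * (e + 1 + m : ℚ) + c) + 3 * ((i : ℚ) + 1)) := by
  rw [prod_range_add, prod_range_succ, num_split1]
  congr 1
  · push_cast; ring
  · refine prod_congr rfl fun i _ => ?_
    push_cast; ring

/-- the general evaluation -/
theorem gen {c e h n : ℕ} (h3 : 3 < p) (hn : p = 2 * n + 1) (he : p = 3 * e + c) (hh : n = e + 1 + h) :
    ∃ y : ℚ, EQ p 1 (y * (2 * n).factorial) ((-3) ^ e * e.factorial * (3 ^ h * h.factorial) * n.factorial) ∧
      y ∈ Zp p ∧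
      ∏ i ∈ range n, ((3 * (i : ℚ) + c) / (4 * i + 2)) = p * y ∧
      EQ p 2 (∏ i ∈ range (3 * n + 1), ((3 * (i : ℚ) + c) / (4 * i + 2))) (2 * (p * y)) := by
  have hpn : (p : ℚ) = 2 * n + 1 := by exact_mod_cast hn
  have hpe : (p : ℚ) = 3 * e + c := by exact_mod_cast he
  have u2 : U p (2 : ℚ) := by exact_mod_cast U_nat (p := p) (k := 2) (by norm_num) (by omega)
  have u3 : U p (3 : ℚ) := by exact_mod_cast U_nat (p := p) (k := 3) (by norm_num) (by omega)
  have h4p : 4 < p := by omega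
  have u4 : U p (4 : ℚ) := by exact_mod_cast U_nat (p := p) (k := 4) (by norm_num) h4p
  have m3 : (-3 : ℚ) ∈ Zp p := neg_mem u3.2.1
  have Ip := I_p (p := p)
  -- denominators
  have uf := U_fac (p := p) (k := n) (by omega)
  have u2f := U_fac (p := p) (k := 2 * n) (by omega)
  set D : ℚ := ∏ i ∈ range n, (4 * (i : ℚ) + 2) with hD
  have hDf : D * n.factorial = (2 * n).factorial := den_prod n
  have uD : U p D := by
    have : D = (2 * n).factorial / n.factorial := by
      rw [eq_div_iff uf.1]; exact hDf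
    rw [this]; exact u2f.div uf
  -- blocks
  set A : ℚ := ∏ i ∈ range e, ((3 * (e : ℚ) + c) + -3 * ((e : ℚ) - i)) with hA
  set B : ℚ := ∏ i ∈ range h, ((3 * (e : ℚ) + c) + 3 * ((i : ℚ) + 1)) with hB
  set M : ℚ := ∏ i ∈ range (2 * n), ((3 * (e : ℚ) + c) + 3 * ((i : ℚ) + 1)) with hM
  set B' : ℚ := ∏ i ∈ range h, ((3 * (e + 1 + (2 * n : ℕ) : ℚ) + c) + 3 * ((i : ℚ) + 1)) with hB'
  set E : ℚ := ∏ i ∈ range (2 * n), ((4 * (n : ℚ) + 2) + 4 * ((i : ℚ) + 1)) with hE
  have eA : EQ p 1 A ((-3) ^ e * e.factorial) := by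
    rw [hA, ← hpe]; exact block' m3 Ip e
  have eB : EQ p 1 B (3 ^ h * h.factorial) := by
    rw [hB, ← hpe]; exact block u3.2.1 Ip h
  have eM : EQ p 1 M (3 ^ (2 * n) * (2 * n).factorial) := by
    rw [hM, ← hpe]; exact block u3.2.1 Ip (2 * n)
  have e4p : (3 * (e + 1 + (2 * n : ℕ) : ℚ) + c) = 4 * p := by
    push_cast
    linear_combination (-1 : ℚ) * hpe - 3 * hpn
  have eB' : EQ p 1 B' (3 ^ h * h.factorial) := by
    rw [hB', e4p]; exact block u3.2.1 (Ip.mulL u4.2.1) h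
  have e2p : 4 * (n : ℚ) + 2 = 2 * p := by rw [hpn]; ring
  have eE : EQ p 1 E (4 ^ (2 * n) * (2 * n).factorial) := by
    rw [hE, e2p]; exact block u4.2.1 (Ip.mulL u2.2.1) (2 * n)
  have f3 : EQ p 1 ((3 : ℚ) ^ (2 * n)) 1 := by
    have := fermat1 (p := p) (x := 3) (by norm_num) (by omega)
    rw [show p - 1 = 2 * n by omega] at this
    exact_mod_cast this
  have f4 : EQ p 1 ((4 : ℚ) ^ (2 * n)) 1 := by
    have := fermat1 (p := p) (x := 4) (by norm_num) (by omega)
    rw [show p - 1 = 2 * n by omega] at this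
    exact_mod_cast this
  have mf : ((2 * n).factorial : ℚ) ∈ Zp p := nat_mem _
  have eM' : EQ p 1 M (2 * n).factorial := by
    have := eM.trans (f3.mul (EQ.refl mf)); rwa [one_mul] at this
  have eE' : EQ p 1 E (2 * n).factorial := by
    have := eE.trans (f4.mul (EQ.refl mf)); rwa [one_mul] at this
  have uE : U p E := eE'.symm.unit (by norm_num) u2f
  refine ⟨A * B / D, ?_, ?_, ?_, ?_⟩
  · have h1 : A * B / D * (2 * n).factorial = A * B * n.factorial := by
      rw [← hDf]; have := uD.1; field_simp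
    rw [h1]
    exact (eA.mul eB).mul (EQ.refl (nat_mem _))
  · rw [div_eq_mul_inv]; exact mul_mem (mul_mem eA.1 eB.1) uD.2.2
  · rw [prod_div_distrib, hh, num_split1, ← hh, ← hA, ← hB, ← hD, ← hpe]; ring
  · rw [prod_div_distrib, den_split, ← hD, ← hE]
    have hN : 3 * n + 1 = e + 1 + 2 * n + 1 + h := by omega
    rw [hN, num_split3, ← hA, ← hM, ← hB', e4p, ← hpe, e2p]
    have uDE := uD.mul uE
    have h1 : A * p * M * (4 * p) * B' / (D * (2 * p) * E) = p * (2 * A * (M * B') / (D * E)) := by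
      have a1 := uD.1
      have a2 := uE.1
      have a3 := p_ne (p := p)
      field_simp
      ring
    have h2 : 2 * (p * (A * B / D)) = p * (2 * A * (E * B) / (D * E)) := by
      have a1 := uD.1
      have a2 := uE.1
      field_simp
    rw [h1, h2]
    refine EQ_small Ip ?_
    refine EQ.div (by norm_num) ?_ (EQ.refl uDE.2.1) uDE
    refine (EQ.refl (mul_mem u2.2.1 eA.1)).mul ?_
    exact (eM'.trans eE'.symm).mul (eB'.trans eB.symm)

end Pool.Agent.K3h68.FE
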