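import Mathlib
import Pool.Agent.K3h68.FE.Fam
import Pool.Agent.K3h68.FE.Gen

set_option autoImplicit false

/-!
MP_37e900_nt, Q2 (a): the two families for `p = 6j+1`.
-/

namespace Pool.Agent.K3h68.FE

open Finset Pool.Agent.R439.PL Pool.Agent.R439.PL.S4 Pool.Agent.R488.Tri Pool.Agent.R488.Cub Pool.Agent.R488.Nin

variable {p j : ℕ} [hp : Fact p.Prime]

theorem mone_mem (k : ℕ) : ((-1 : ℚ)) ^ k ∈ Zp p := pow_mem (neg_mem (one_mem _)) k

theorem mone5 (j : ℕ) : (-1 : ℚ) ^ (5 * j) = (-1) ^ j := by rw [pow_mul]; norm_num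

theorem mone3 (j : ℕ) : (-1 : ℚ) ^ (3 * j) = (-1) ^ j := by rw [pow_mul]; norm_num

theorem mone6 (j : ℕ) : (-1 : ℚ) ^ (6 * j) = 1 := by rw [pow_mul]; norm_num

/-- `p H(5j) = p H(j)` modulo `p^2` -/
theorem pH5 (hpj : p = 6 * j + 1) : EQ p 2 (p * H (5 * j)) (p * H j) := by
  have h1 := choose_pm2 (p := p) (k := j) (by omega)
  have h5 := choose_pm2 (p := p) (k := 5 * j) (by omega)
  rw [show p - 1 = 6 * j by omega] at h1 h5
  have e : (6 * j).choose (5 * j) = (6 * j).choose j := by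
    rw [← Nat.choose_symm (show j ≤ 6 * j by omega)]; congr 1; omega
  rw [e, mone5] at h5
  have h := (EQ.refl (p := p) (k := 2) (mone_mem j)).mul (h5.symm.trans h1)
  have s := mone_sq' j
  have e1 : (-1 : ℚ) ^ j * ((-1) ^ j * (1 - p * H (5 * j))) = 1 - p * H (5 * j) := by
    linear_combination (1 - p * H (5 * j)) * s
  have e2 : (-1 : ℚ) ^ j * ((-1) ^ j * (1 - p * H j)) = 1 - p * H j := by
    linear_combination (1 - p * H j) * s
  rw [e1, e2] at h
  have h' := (EQ.refl (p := p) (k := 2) (one_mem _)).sub h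
  have e3 : 1 - (1 - p * H (5 * j)) = p * H (5 * j) := by ring
  have e4 : 1 - (1 - p * H j) = p * H j := by ring
  rwa [e3, e4] at h'

theorem pH6 (hpj : p = 6 * j + 1) : EQ p 2 (p * H (6 * j)) 0 := by
  have h1 := choose_pm2 (p := p) (k := 6 * j) (by omega)
  rw [show p - 1 = 6 * j by omega, Nat.choose_self, mone6, one_mul] at h1
  have h' := (EQ.refl (p := p) (k := 2) (one_mem _)).sub h1
  have e3 : 1 - (1 - p * H (6 * j)) = p * H (6 * j) := by ring
  have e4 : (1 : ℚ) - ((1 : ℕ) : ℚ) = 0 := by norm_num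
  rw [e3, e4] at h'
  exact h'.symm

/-- GG at zero -/
theorem GG_zero (hpj : p = 6 * j + 1) {b C3 : ℚ} (hC3 : C3 = ((3 * j).choose j : ℚ))
    (hb : b = (-27) ^ j - 1) (Ib : I p 1 b) : EQ p 2 (2 * GG p 0) (p * C3⁻¹) := by
  have hj := j_pos hpj
  have h3 : 3 < p := by omega
  obtain ⟨n, hn⟩ : ∃ n, n = 3 * j := ⟨_, rfl⟩
  obtain ⟨e, he⟩ : ∃ e, 2 * j = e + 1 := ⟨2 * j - 1, by omega⟩
  have hpn : p = 2 * n + 1 := by omega
  obtain ⟨u2, u3, u4⟩ := Us h3
  obtain ⟨y, hy1, hy2, hy3, hy4⟩ := gen (p := p) (c := 4) (e := e) (h := j) (n := n) h3 hpn (by omega) (by omega)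
  have v1 := GG_val (p := p) (N := n) (m := 1) (by omega) (by norm_num)
  have v3 := GG_val (p := p) (N := 3 * n + 1) (m := 3) (by omega) (by norm_num)
  push_cast at hy3 hy4 v1 v3
  rw [one_mul] at v1
  rw [hy3] at v1
  rw [← v3] at hy4
  have Ip := I_p (p := p)
  have hI : I p 1 ((p : ℚ) / 4) := by rw [div_eq_mul_inv]; exact Ip.mulR u4.2.2
  have hin := interp3 (lin_GG (p := p) h3) u3 hI
  have e3 : (3 : ℚ) * (p / 4) = 3 * p / 4 := by ring
  rw [e3, v1] at hin
  have mpy : (p : ℚ) * y ∈ Zp p := mul_mem p_mem hy2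
  have h1 := hin.trans ((EQ.refl (k := 2) (mul_mem u3.2.1 mpy)).sub hy4)
  have e4 : 3 * ((p : ℚ) * y) - 2 * (p * y) = p * y := by ring
  rw [e4] at h1
  have uC3 : U p C3 := by rw [hC3]; exact C_unit (by omega) (by omega)
  have une := U_fac (p := p) (k := n) (by omega)
  have hyc : EQ p 1 (y * C3) 1 := by
    have g1 : EQ p 1 ((2 * n).factorial : ℚ) ((-1) ^ n * (n.factorial * n.factorial)) := by
      have h := Pool.Agent.R488.Cub.JSm.choose_pm1 (p := p) n (by omega)
      rw [show p - 1 = 2 * n by omega] at h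
      have h2 := h.mul (EQ.refl (p := p) (k := 1) (mul_mem une.2.1 une.2.1))
      have e5 : ((2 * n).choose n : ℚ) * (n.factorial * n.factorial) = (2 * n).factorial := by
        have h5 := Nat.choose_mul_factorial_mul_factorial (show n ≤ 2 * n by omega)
        rw [show 2 * n - n = n by omega] at h5
        rw [← mul_assoc]; exact_mod_cast h5
      rwa [e5] at h2
    have g2 : EQ p 1 (C3 * (e.factorial * j.factorial)) (-3 * n.factorial) := by
      have h5 := Nat.choose_mul_factorial_mul_factorial (show j ≤ 3 * j by omega)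
      rw [show 3 * j - j = 2 * j by omega] at h5
      have h6 : C3 * j.factorial * (2 * j).factorial = n.factorial := by
        rw [hC3, hn]; exact_mod_cast h5
      have hjq : (2 : ℚ) * j = e + 1 := by exact_mod_cast he
      have h8 : ((2 * j).factorial : ℚ) = (2 * j) * e.factorial := by
        rw [he, Nat.factorial_succ]; push_cast; rw [← hjq]
      rw [h8] at h6
      have hpq : (p : ℚ) = 6 * j + 1 := by exact_mod_cast hpj
      have mm : C3 * (e.factorial * j.factorial) ∈ Zp p :=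
        mul_mem uC3.2.1 (mul_mem (nat_mem _) (nat_mem _))
      refine ⟨mm, mul_mem (neg_mem u3.2.1) (nat_mem _), ?_⟩
      have e6 : C3 * (e.factorial * j.factorial) - -3 * n.factorial = p * (C3 * (e.factorial * j.factorial)) := by
        linear_combination -(C3 * (e.factorial * j.factorial)) * hpq - 3 * h6
      rw [e6]
      exact Ip.mulR mm
    have mA : (-3 : ℚ) ^ e * 3 ^ j ∈ Zp p := mul_mem (pow_mem (neg_mem u3.2.1) _) (pow_mem u3.2.1 _)
    have k1 : EQ p 1 ((n.factorial * n.factorial : ℚ) * ((-1) ^ n * (y * C3)))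
        ((n.factorial * n.factorial : ℚ) * ((-3) ^ e * 3 ^ j * -3)) := by
      have k2 := ((EQ.refl (k := 1) hy2).mul g1).symm.trans hy1
      have k3 := k2.mul (EQ.refl (k := 1) uC3.2.1)
      have k4 := ((EQ.refl (k := 1) (mul_mem mA une.2.1)).mul g2)
      have e7 : y * ((-1) ^ n * (n.factorial * n.factorial : ℚ)) * C3 =
          (n.factorial * n.factorial : ℚ) * ((-1) ^ n * (y * C3)) := by ring
      have e8 : (-3) ^ e * (e.factorial : ℚ) * (3 ^ j * j.factorial) * n.factorial * C3 =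
          (-3) ^ e * 3 ^ j * n.factorial * (C3 * (e.factorial * j.factorial)) := by ring
      have e9 : (-3) ^ e * 3 ^ j * (n.factorial : ℚ) * (-3 * n.factorial) =
          (n.factorial * n.factorial : ℚ) * ((-3) ^ e * 3 ^ j * -3) := by ring
      rw [e7, e8] at k3
      rw [e9] at k4
      exact k3.trans k4
    have k5 := EQ_cancel (une.mul une) (mul_mem (mone_mem n) (mul_mem hy2 uC3.2.1))
      (mul_mem mA (neg_mem u3.2.1)) k1
    have k6 := (EQ.refl (p := p) (k := 1) (mone_mem n)).mul k5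
    have s1 := mone_sq' n
    have e10 : (-1 : ℚ) ^ n * ((-1) ^ n * (y * C3)) = y * C3 := by linear_combination (y * C3) * s1
    have e11 : (-1 : ℚ) ^ n * ((-3) ^ e * 3 ^ j * -3) = 1 + b := by
      rw [hn, mone3]
      have e12 : (-3 : ℚ) ^ e * -3 = 9 ^ j := by rw [← pow_succ, ← he, pow_mul]; norm_num
      have e15 : (-27 : ℚ) ^ j = (-1) ^ j * (9 ^ j * 3 ^ j) := by rw [← mul_pow, ← mul_pow]; norm_num
      rw [hb, e15, ← e12]; ring
    rw [e10, e11] at k6
    refine k6.trans ⟨k6.2.1, one_mem _, ?_⟩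
    have e12 : 1 + b - 1 = b := by ring
    rw [e12]; exact Ib
  have hyc' : EQ p 1 y C3⁻¹ := by
    have h := hyc.mul (EQ.refl (k := 1) uC3.2.2)
    have a1 := uC3.1
    have e5 : y * C3 * C3⁻¹ = y := by field_simp
    rwa [e5, one_mul] at h
  exact h1.trans (EQ_small Ip hyc')

/-- numerator at `p/4` -/
theorem num1 (hpj : p = 6 * j + 1) : EQ p 2 (∏ i ∈ range (3 * j), (3 * (i : ℚ) + 2))
    (27 ^ j * (((5 * j).choose (3 * j) : ℚ) * (3 * j).factorial * (1 - p / 3 * (H (5 * j) - H (2 * j))))) := by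
  have hpq : (p : ℚ) = 6 * j + 1 := by exact_mod_cast hpj
  have h3 : 3 < p := by have := j_pos hpj; omega
  obtain ⟨u2, u3, u4⟩ := Us h3
  have hI : I p 1 ((p : ℚ) / 3) := by rw [div_eq_mul_inv]; exact (I_p (p := p)).mulR u3.2.2
  have h := prodH (p := p) (a := 5 * j) (b := 3 * j) (by omega) (by omega) hI
  rw [prod_choose _ _ (by omega), show 5 * j - 3 * j = 2 * j by omega] at h
  have e : ∏ i ∈ range (3 * j), (3 * (i : ℚ) + 2) =
      27 ^ j * ∏ i ∈ range (3 * j), (((5 * j : ℕ) : ℚ) - i - p / 3) := by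
    rw [← prod_range_reflect, show (27 : ℚ) ^ j = 3 ^ (3 * j) by rw [pow_mul]; norm_num]
    rw [← card_range (3 * j), ← prod_const, card_range, ← prod_mul_distrib]
    refine prod_congr rfl fun i hi => ?_
    have hi' := mem_range.1 hi
    rw [Nat.sub_sub, Nat.cast_sub (by omega), hpq]
    push_cast; ring
  rw [e]
  exact (EQ.refl (by exact_mod_cast nat_mem (p := p) (27 ^ j))).mul h

/-- numerator at `3p/4` -/
theorem num3 (hpj : p = 6 * j + 1) : ∃ X : ℚ, ∏ i ∈ range (9 * j + 1), (3 * (i : ℚ) + 2) = 2 * p * X ∧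
    EQ p 2 X (27 ^ (3 * j) * ((∏ i ∈ range (4 * j), (((6 * j : ℕ) : ℚ) - i)) * (1 - p / 3 * (H (6 * j) - H (2 * j)))) *
      ((5 * j).factorial * (1 - -(2 * (p / 3)) * (H (5 * j) - H 0)))) := by
  have hpq : (p : ℚ) = 6 * j + 1 := by exact_mod_cast hpj
  have h3 : 3 < p := by have := j_pos hpj; omega
  obtain ⟨u2, u3, u4⟩ := Us h3
  have hI : I p 1 ((p : ℚ) / 3) := by rw [div_eq_mul_inv]; exact (I_p (p := p)).mulR u3.2.2
  have hI2 : I p 1 (-(2 * ((p : ℚ) / 3))) := (hI.mulL u2.2.1).neg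
  have h1 := prodH (p := p) (a := 6 * j) (b := 4 * j) (by omega) (by omega) hI
  have h2 := prodH (p := p) (a := 5 * j) (b := 5 * j) (by omega) (by omega) hI2
  rw [desc_fac, Nat.sub_self] at h2
  rw [show 6 * j - 4 * j = 2 * j by omega] at h1
  refine ⟨27 ^ (3 * j) * (∏ i ∈ range (4 * j), (((6 * j : ℕ) : ℚ) - i - p / 3)) *
    ∏ i ∈ range (5 * j), (((5 * j : ℕ) : ℚ) - i - -(2 * (p / 3))), ?_, ?_⟩
  · have e1 : ∏ i ∈ range (4 * j), (3 * (i : ℚ) + 2) =
        3 ^ (4 * j) * ∏ i ∈ range (4 * j), (((6 * j : ℕ) : ℚ) - i - p / 3) := by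
      rw [← prod_range_reflect]
      rw [← card_range (4 * j), ← prod_const, card_range, ← prod_mul_distrib]
      refine prod_congr rfl fun i hi => ?_
      have hi' := mem_range.1 hi
      rw [Nat.sub_sub, Nat.cast_sub (by omega), hpq]
      push_cast; ring
    have e2 : ∏ i ∈ range (5 * j), (3 * ((4 * j + 1 + i : ℕ) : ℚ) + 2) =
        3 ^ (5 * j) * ∏ i ∈ range (5 * j), (((5 * j : ℕ) : ℚ) - i - -(2 * (p / 3))) := by
      rw [← prod_range_reflect]
      rw [← card_range (5 * j), ← prod_const, card_range, ← prod_mul_distrib]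
      refine prod_congr rfl fun i hi => ?_
      have hi' := mem_range.1 hi
      rw [Nat.sub_sub, Nat.cast_add, Nat.cast_sub (by omega), hpq]
      push_cast; ring
    rw [show 9 * j + 1 = 4 * j + 1 + 5 * j by ring, prod_range_add, prod_range_succ, e1, e2]
    have e3 : (3 * ((4 * j : ℕ) : ℚ) + 2) = 2 * p := by rw [hpq]; push_cast; ring
    have e4 : (27 : ℚ) ^ (3 * j) = 3 ^ (4 * j) * 3 ^ (5 * j) := by
      rw [← pow_add, show 4 * j + 5 * j = 3 * (3 * j) by ring, pow_mul (3 : ℚ) 3 (3 * j)]; norm_num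
    rw [e3, e4]; ring
  · exact ((EQ.refl (by exact_mod_cast nat_mem (p := p) (27 ^ (3 * j)))).mul h1).mul h2

/-- the extra denominator at `3p/4` -/
theorem den3 (hpj : p = 6 * j + 1) : EQ p 2 (∏ i ∈ range (2 * (3 * j)), ((4 * ((3 * j : ℕ) : ℚ) + 2) + 4 * ((i : ℚ) + 1)))
    (4096 ^ j * ((6 * j).factorial * (1 - -(p / 2) * (H (6 * j) - H 0)))) := by
  have hpq : (p : ℚ) = 6 * j + 1 := by exact_mod_cast hpj
  have h3 : 3 < p := by have := j_pos hpj; omega
  obtain ⟨u2, u3, u4⟩ := Us h3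
  have hI : I p 1 (-((p : ℚ) / 2)) := by
    rw [div_eq_mul_inv]; exact ((I_p (p := p)).mulR u2.2.2).neg
  have h := prodH (p := p) (a := 6 * j) (b := 6 * j) (by omega) (by omega) hI
  rw [desc_fac, Nat.sub_self] at h
  have e : ∏ i ∈ range (2 * (3 * j)), ((4 * ((3 * j : ℕ) : ℚ) + 2) + 4 * ((i : ℚ) + 1)) =
      4096 ^ j * ∏ i ∈ range (6 * j), (((6 * j : ℕ) : ℚ) - i - -(p / 2)) := by
    rw [show 2 * (3 * j) = 6 * j by ring, ← prod_range_reflect,
      show (4096 : ℚ) ^ j = 4 ^ (6 * j) by rw [pow_mul]; norm_num]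
    rw [← card_range (6 * j), ← prod_const, card_range, ← prod_mul_distrib]
    refine prod_congr rfl fun i hi => ?_
    have hi' := mem_range.1 hi
    rw [Nat.sub_sub, Nat.cast_sub (by omega), hpq]
    push_cast; ring
  rw [e]
  exact (EQ.refl (by exact_mod_cast nat_mem (p := p) (4096 ^ j))).mul h

end Pool.Agent.K3h68.FE
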