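import Mathlib
import Pool.Agent.K3h68.FE.One
import Pool.Agent.R488.Tw.QF

set_option autoImplicit false

/-!
MP_37e900_nt, Q2 (a): the first family at zero for `p = 6j+1`.
-/

namespace Pool.Agent.K3h68.FE

open Finset Pool.Agent.R439.PL Pool.Agent.R439.PL.S4 Pool.Agent.R488.Tri Pool.Agent.R488.Cub Pool.Agent.R488.Nin
  Pool.Agent.R488.Tw

variable {p j : ℕ} [hp : Fact p.Prime]

/-- `C(5j,3j) C(6j,j) = C(6j,3j) C(3j,j)` -/
theorem Q_exact (j : ℕ) : ((5 * j).choose (3 * j) : ℚ) * ((6 * j).choose j : ℚ) =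
    ((6 * j).choose (3 * j) : ℚ) * ((3 * j).choose j : ℚ) := by
  have f : ∀ k : ℕ, (k.factorial : ℚ) ≠ 0 := fun k => by exact_mod_cast k.factorial_ne_zero
  have g : ∀ a b : ℕ, b ≤ a → (a.choose b : ℚ) = a.factorial / (b.factorial * (a - b).factorial) := by
    intro a b h
    have h1 := Nat.choose_mul_factorial_mul_factorial h
    rw [eq_div_iff (mul_ne_zero (f _) (f _)), ← mul_assoc]; exact_mod_cast h1
  rw [g (5 * j) (3 * j) (by omega), g (6 * j) j (by omega), g (6 * j) (3 * j) (by omega),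
    g (3 * j) j (by omega), show 5 * j - 3 * j = 2 * j by omega, show 6 * j - j = 5 * j by omega,
    show 6 * j - 3 * j = 3 * j by omega, show 3 * j - j = 2 * j by omega]
  have := f j; have := f (2 * j); have := f (3 * j); have := f (5 * j); have := f (6 * j)
  field_simp

/-- `D (3j)! = (6j)!`, so `C(5j,3j) (3j)! / D = C(5j,3j) / C(6j,3j)` -/
theorem Q_D (j : ℕ) {D : ℚ} (hD : D * (3 * j).factorial = (2 * (3 * j)).factorial) (hD0 : D ≠ 0) :
    ((5 * j).choose (3 * j) : ℚ) * (3 * j).factorial / D = ((5 * j).choose (3 * j) : ℚ) / ((6 * j).choose (3 * j) : ℚ) := by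
  have h1 := Nat.choose_mul_factorial_mul_factorial (show 3 * j ≤ 6 * j by omega)
  rw [show 6 * j - 3 * j = 3 * j by omega] at h1
  have h2 : ((6 * j).choose (3 * j) : ℚ) * (3 * j).factorial * (3 * j).factorial = (6 * j).factorial := by exact_mod_cast h1
  have f3 : ((3 * j).factorial : ℚ) ≠ 0 := by exact_mod_cast (3 * j).factorial_ne_zero
  have c6 : ((6 * j).choose (3 * j) : ℚ) ≠ 0 := by
    exact_mod_cast (Nat.choose_pos (show 3 * j ≤ 6 * j by omega)).ne'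
  rw [div_eq_div_iff hD0 c6]
  rw [show 2 * (3 * j) = 6 * j by ring, ← h2] at hD
  have h3 : D = ((6 * j).choose (3 * j) : ℚ) * (3 * j).factorial := by
    apply mul_right_cancel₀ f3; rw [hD]
  rw [h3]; ring

theorem UU_zero (hpj : p = 6 * j + 1) {a b C4 C3 : ℚ} (hC3 : C3 = ((3 * j).choose j : ℚ))
    (ha : a = 64 ^ j - 1) (hb : b = (-27) ^ j - 1) (Ia : I p 1 a) (Ib : I p 1 b)
    (E2 : EQ p 2 (p * H (2 * j)) (-3 * b)) (E1 : EQ p 2 (p * H j) (-2 * a - 3 * b))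
    (e1 : EQ p 2 C4 (16 ^ j * C3 * (1 + -(3 / 2) * b))) :
    EQ p 2 (UU p 0) (C4 * ((16 ^ j)⁻¹ * (1 + 2 / 3 * a))) := by
  have hj := j_pos hpj
  have h3 : 3 < p := by omega
  obtain ⟨u2, u3, u4⟩ := Us h3
  have hpq : (p : ℚ) = 6 * j + 1 := by exact_mod_cast hpj
  have Ip := I_p (p := p)
  have hH0 : H 0 = 0 := by simp [H]
  have m13 : (1 / 3 : ℚ) ∈ Zp p := by rw [one_div]; exact u3.2.2
  have m23 : (2 / 3 : ℚ) ∈ Zp p := by rw [div_eq_mul_inv]; exact mul_mem u2.2.1 u3.2.2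
  have m12 : (1 / 2 : ℚ) ∈ Zp p := by rw [one_div]; exact u2.2.2
  have E5 := (pH5 hpj).trans E1
  have E6 := pH6 hpj
  -- the four small factors
  have s1 : EQ p 2 (1 - p / 3 * (H (5 * j) - H (2 * j))) (1 + 2 / 3 * a) := by
    have h := EQ_lin (neg_mem m13) (E5.sub E2)
    have x1 : 1 + -(1 / 3) * (p * H (5 * j) - p * H (2 * j)) = 1 - p / 3 * (H (5 * j) - H (2 * j)) := by ring
    have x2 : 1 + -(1 / 3) * (-2 * a - 3 * b - -3 * b) = 1 + 2 / 3 * a := by ring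
    rwa [x1, x2] at h
  have s2 : EQ p 2 (1 - p / 3 * (H (6 * j) - H (2 * j))) (1 + -b) := by
    have h := EQ_lin (neg_mem m13) (E6.sub E2)
    have x1 : 1 + -(1 / 3) * (p * H (6 * j) - p * H (2 * j)) = 1 - p / 3 * (H (6 * j) - H (2 * j)) := by ring
    have x2 : 1 + -(1 / 3) * (0 - -3 * b) = 1 + -b := by ring
    rwa [x1, x2] at h
  have s3 : EQ p 2 (1 - -(2 * (p / 3)) * (H (5 * j) - H 0)) (1 + 2 / 3 * (-2 * a - 3 * b)) := by
    have h := EQ_lin m23 E5
    have x1 : 1 + 2 / 3 * (p * H (5 * j)) = 1 - -(2 * (p / 3)) * (H (5 * j) - H 0) := by rw [hH0]; ring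
    rwa [x1] at h
  have s4 : EQ p 2 (1 - -(p / 2) * (H (6 * j) - H 0)) 1 := by
    have h := EQ_lin m12 E6
    have x1 : 1 + 1 / 2 * (p * H (6 * j)) = 1 - -(p / 2) * (H (6 * j) - H 0) := by rw [hH0]; ring
    have x2 : 1 + 1 / 2 * (0 : ℚ) = 1 := by ring
    rwa [x1, x2] at h
  -- units
  have uf3 := U_fac (p := p) (k := 3 * j) (by omega)
  have uf6 := U_fac (p := p) (k := 6 * j) (by omega)
  have uC63 : U p ((6 * j).choose (3 * j) : ℚ) := C_unit (by omega) (by omega)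
  have uC53 : U p ((5 * j).choose (3 * j) : ℚ) := C_unit (by omega) (by omega)
  obtain ⟨D, hD⟩ : ∃ D : ℚ, D = ∏ i ∈ range (3 * j), (4 * (i : ℚ) + 2) := ⟨_, rfl⟩
  have hDf : D * (3 * j).factorial = (2 * (3 * j)).factorial := by rw [hD]; exact den_prod (3 * j)
  have uD : U p D := by
    have : D = (6 * j).factorial / (3 * j).factorial := by
      rw [eq_div_iff uf3.1, hDf, show 2 * (3 * j) = 6 * j by ring]
    rw [this]; exact uf6.div uf3
  obtain ⟨Q, hQ⟩ : ∃ Q : ℚ, Q = ((5 * j).choose (3 * j) : ℚ) / ((6 * j).choose (3 * j) : ℚ) := ⟨_, rfl⟩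
  have uQ : U p Q := by rw [hQ]; exact uC53.div uC63
  have hQD : ((5 * j).choose (3 * j) : ℚ) * (3 * j).factorial / D = Q := by rw [hQ]; exact Q_D j hDf uD.1
  -- powers
  have p27 : (27 : ℚ) ^ j = (-1) ^ j * (1 + b) := by
    have : (-27 : ℚ) ^ j = (-1) ^ j * 27 ^ j := by rw [← mul_pow]; norm_num
    rw [hb, this]
    linear_combination -(27 ^ j : ℚ) * mone_sq' j
  have p4096 : (4096 : ℚ) ^ j = (1 + a) ^ 2 := by
    rw [ha, show 1 + ((64 : ℚ) ^ j - 1) = 64 ^ j by ring, ← pow_mul, mul_comm j 2, pow_mul]; norm_num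
  have p273 : (27 : ℚ) ^ (3 * j) = (-1) ^ j * (1 + b) ^ 3 := by
    rw [mul_comm 3 j, pow_mul, p27, mul_pow, ← pow_mul, mul_comm j 3, mone3]
  -- value at p/4
  have v1 : EQ p 2 (UU p (p / 4)) ((-1) ^ j * Q * (1 + b + 2 / 3 * a)) := by
    have h := UU_val (p := p) (N := 3 * j) (m := 1) (by omega) (by norm_num)
    push_cast at h
    rw [one_mul] at h
    rw [h, prod_div_distrib, ← hD]
    have h1 := (num1 (p := p) hpj).div (by norm_num) (EQ.refl (p := p) (k := 2) uD.2.1) uD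
    have h2 : 27 ^ j * (((5 * j).choose (3 * j) : ℚ) * (3 * j).factorial * (1 - p / 3 * (H (5 * j) - H (2 * j)))) / D =
        (-1) ^ j * Q * ((1 + b) * (1 - p / 3 * (H (5 * j) - H (2 * j)))) := by
      rw [p27, ← hQD]; ring
    rw [h2] at h1
    refine h1.trans ?_
    have mQ : (-1) ^ j * Q ∈ Zp p := mul_mem (mone_mem j) uQ.2.1
    refine (EQ.refl mQ).mul ?_
    exact ((EQ.refl (U_small Ib).2.1).mul s1).trans (mul_small Ib (Ia.mulL m23))
  -- value at 3p/4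
  have v3 : EQ p 2 (UU p (3 * p / 4)) ((-1) ^ j * Q * (1 + -(10 / 3) * a)) := by
    have h := UU_val (p := p) (N := 3 * (3 * j) + 1) (m := 3) (by omega) (by norm_num)
    push_cast at h
    rw [h, prod_div_distrib, den_split, ← hD]
    obtain ⟨X, hX1, hX2⟩ := num3 (p := p) hpj
    rw [show 3 * (3 * j) + 1 = 9 * j + 1 by ring, hX1]
    have hE := den3 (p := p) hpj
    obtain ⟨E, hEE⟩ : ∃ E : ℚ, E = ∏ i ∈ range (2 * (3 * j)), ((4 * ((3 * j : ℕ) : ℚ) + 2) + 4 * ((i : ℚ) + 1)) := ⟨_, rfl⟩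
    rw [← hEE] at hE ⊢
    have u4096 : U p ((4096 : ℚ) ^ j) := by
      have : (4096 : ℚ) = 4 * 4 * 4 * 4 * 4 * 4 := by norm_num
      rw [this]
      exact (((((u4.mul u4).mul u4).mul u4).mul u4).mul u4).pow j
    have hE' : EQ p 2 E (4096 ^ j * (6 * j).factorial) := by
      refine hE.trans ?_
      have h := (EQ.refl (p := p) (k := 2) u4096.2.1).mul ((EQ.refl (p := p) (k := 2) uf6.2.1).mul s4)
      rwa [mul_one] at h
    have uE : U p E := hE'.symm.unit (by norm_num) (u4096.mul uf6)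
    have hX3 : EQ p 2 X (27 ^ (3 * j) * ((∏ i ∈ range (4 * j), (((6 * j : ℕ) : ℚ) - i)) * (1 + -b)) *
        ((5 * j).factorial * (1 + 2 / 3 * (-2 * a - 3 * b)))) := by
      refine hX2.trans ?_
      have mP : (∏ i ∈ range (4 * j), (((6 * j : ℕ) : ℚ) - i)) ∈ Zp p := prod_mem fun i _ =>
        sub_mem (nat_mem _) (nat_mem _)
      exact ((EQ.refl (by exact_mod_cast nat_mem (p := p) (27 ^ (3 * j)))).mul ((EQ.refl mP).mul s2)).mul
        ((EQ.refl (nat_mem _)).mul s3)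
    have h1 : 2 * p * X / (D * (4 * ((3 * j : ℕ) : ℚ) + 2) * E) = X / (D * E) := by
      have e2p : (4 * ((3 * j : ℕ) : ℚ) + 2) = 2 * p := by rw [hpq]; push_cast; ring
      have a1 := uD.1
      have a2 := uE.1
      have a3 := p_ne (p := p)
      rw [e2p]
      field_simp
    rw [h1]
    have h2 := hX3.div (by norm_num) ((EQ.refl (p := p) (k := 2) uD.2.1).mul hE') (uD.mul uE)
    have h4 : 27 ^ (3 * j) * ((∏ i ∈ range (4 * j), (((6 * j : ℕ) : ℚ) - i)) * (1 + -b)) *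
        ((5 * j).factorial * (1 + 2 / 3 * (-2 * a - 3 * b))) / (D * (4096 ^ j * (6 * j).factorial)) =
        (-1) ^ j * Q * ((1 + b) ^ 3 * (1 + -b) * (1 + 2 / 3 * (-2 * a - 3 * b)) * ((1 + a) ^ 2)⁻¹) := by
      have f2 : ((2 * j).factorial : ℚ) ≠ 0 := by exact_mod_cast (2 * j).factorial_ne_zero
      have h5 : ∏ i ∈ range (4 * j), (((6 * j : ℕ) : ℚ) - i) = (6 * j).factorial / (2 * j).factorial := by
        rw [prod_choose _ _ (by omega), eq_div_iff f2]
        have h6 := Nat.choose_mul_factorial_mul_factorial (show 4 * j ≤ 6 * j by omega)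
        rw [show 6 * j - 4 * j = 2 * j by omega] at h6
        exact_mod_cast h6
      have h6 : ((5 * j).factorial : ℚ) = ((5 * j).choose (3 * j) : ℚ) * (3 * j).factorial * (2 * j).factorial := by
        have h6 := Nat.choose_mul_factorial_mul_factorial (show 3 * j ≤ 5 * j by omega)
        rw [show 5 * j - 3 * j = 2 * j by omega] at h6
        exact_mod_cast h6.symm
      rw [h5, h6, p273, p4096, ← hQD]
      have a1 := uD.1
      have a6 := uf6.1
      have a7 : (1 + a) ≠ 0 := (U_small Ia).1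
      field_simp
    rw [h4] at h2
    refine h2.trans ?_
    have mQ : (-1) ^ j * Q ∈ Zp p := mul_mem (mone_mem j) uQ.2.1
    refine (EQ.refl mQ).mul ?_
    have Iab : I p 1 (2 / 3 * (-2 * a - 3 * b)) :=
      ((Ia.mulL (neg_mem u2.2.1)).sub (Ib.mulL u3.2.1)).mulL m23
    have I3b : I p 1 (((3 : ℕ) : ℚ) * b) := Ib.mulL (nat_mem 3)
    have I2a : I p 1 (((2 : ℕ) : ℚ) * a) := Ia.mulL (nat_mem 2)
    have k1 := (pow_small (p := p) Ib 3).mul (EQ.refl (k := 2) (U_small Ib.neg).2.1)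
    have k2 := k1.trans (mul_small I3b Ib.neg)
    have k2' : 1 + ((3 : ℕ) : ℚ) * b + -b = 1 + 2 * b := by push_cast; ring
    rw [k2'] at k2
    have I2b : I p 1 (2 * b) := Ib.mulL u2.2.1
    have k3 := (k2.mul (EQ.refl (k := 2) (U_small Iab).2.1)).trans (mul_small I2b Iab)
    have k3' : 1 + 2 * b + 2 / 3 * (-2 * a - 3 * b) = 1 + -(4 / 3) * a := by ring
    rw [k3'] at k3
    have k4 := (pow_small (p := p) Ia 2).inv (by norm_num) ((U_small Ia).pow 2)
    have k5 := k4.trans (inv_small I2a)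
    have k5' : 1 - ((2 : ℕ) : ℚ) * a = 1 + -2 * a := by push_cast; ring
    rw [k5'] at k5
    have m43 : (-(4 / 3) : ℚ) ∈ Zp p := by
      rw [div_eq_mul_inv]; exact neg_mem (mul_mem u4.2.1 u3.2.2)
    have k6 := (k3.mul k5).trans (mul_small (Ia.mulL m43) (Ia.mulL (neg_mem u2.2.1)))
    have k6' : 1 + -(4 / 3) * a + -2 * a = 1 + -(10 / 3) * a := by ring
    rwa [k6'] at k6
  -- interpolation
  have hI : I p 1 ((p : ℚ) / 4) := by rw [div_eq_mul_inv]; exact Ip.mulR u4.2.2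
  have hin := interp3 (lin_UU (p := p) h3) u3 hI
  rw [show (3 : ℚ) * (p / 4) = 3 * p / 4 by ring] at hin
  have w1 := hin.trans (((EQ.refl (k := 2) u3.2.1).mul v1).sub v3)
  have w2 : 3 * ((-1) ^ j * Q * (1 + b + 2 / 3 * a)) - (-1) ^ j * Q * (1 + -(10 / 3) * a) =
      (-1) ^ j * Q * (2 * (1 + (3 / 2 * b + 8 / 3 * a))) := by ring
  rw [w2] at w1
  -- C3 and Q
  have I23 : I p 1 (2 * a + 3 * b) := (Ia.mulL u2.2.1).add (Ib.mulL u3.2.1)
  have hC3Q : EQ p 2 ((-1) ^ j * Q * (1 + (2 * a + 3 * b))) C3 := by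
    have h1 := choose_pm2 (p := p) (k := j) (by omega)
    rw [show p - 1 = 6 * j by omega] at h1
    have h2 := EQ_lin (p := p) (neg_mem (one_mem _)) E1
    have x1 : 1 + -1 * (p * H j) = 1 - p * H j := by ring
    have x2 : 1 + -1 * (-2 * a - 3 * b) = 1 + (2 * a + 3 * b) := by ring
    rw [x1, x2] at h2
    have h4 := h1.trans ((EQ.refl (k := 2) (mone_mem j)).mul h2)
    have h5 := (EQ.refl (k := 2) uQ.2.1).mul h4
    have x3 : Q * ((6 * j).choose j : ℚ) = C3 := by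
      rw [hQ, hC3]
      have := Q_exact j
      have a1 := uC63.1
      field_simp
      linear_combination this
    have x4 : Q * ((-1) ^ j * (1 + (2 * a + 3 * b))) = (-1) ^ j * Q * (1 + (2 * a + 3 * b)) := by ring
    rw [x3, x4] at h5
    exact h5.symm
  have hK : EQ p 2 ((-1) ^ j * Q) (C3 * (1 + -(2 * a + 3 * b))) := by
    have mQ : (-1) ^ j * Q ∈ Zp p := mul_mem (mone_mem j) uQ.2.1
    have h1 := hC3Q.mul (EQ.refl (k := 2) (U_small I23.neg).2.1)
    have h2 := (EQ.refl (k := 2) mQ).mul (mul_small I23 I23.neg)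
    have x1 : (-1) ^ j * Q * (1 + (2 * a + 3 * b)) * (1 + -(2 * a + 3 * b)) =
        (-1) ^ j * Q * ((1 + (2 * a + 3 * b)) * (1 + -(2 * a + 3 * b))) := by ring
    rw [x1] at h1
    have h3 := h2.symm.trans h1
    have x2 : (-1) ^ j * Q * (1 + (2 * a + 3 * b) + -(2 * a + 3 * b)) = (-1) ^ j * Q := by ring
    rwa [x2] at h3
  have m32 : (3 / 2 : ℚ) ∈ Zp p := by rw [div_eq_mul_inv]; exact mul_mem u3.2.1 u2.2.2
  have m83 : (8 / 3 : ℚ) ∈ Zp p := by
    have : (8 / 3 : ℚ) = 2 * 4 * 3⁻¹ := by norm_num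
    rw [this]; exact mul_mem (mul_mem u2.2.1 u4.2.1) u3.2.2
  have Imix : I p 1 (3 / 2 * b + 8 / 3 * a) := (Ib.mulL m32).add (Ia.mulL m83)
  have mC3 : C3 ∈ Zp p := by rw [hC3]; exact nat_mem _
  have w3 := w1.trans (hK.mul (EQ.refl (k := 2) (mul_mem u2.2.1 (U_small Imix).2.1)))
  have w4 := (EQ.refl (k := 2) (mul_mem u2.2.1 mC3)).mul (mul_small I23.neg Imix)
  have w5 : C3 * (1 + -(2 * a + 3 * b)) * (2 * (1 + (3 / 2 * b + 8 / 3 * a))) =
      2 * C3 * ((1 + -(2 * a + 3 * b)) * (1 + (3 / 2 * b + 8 / 3 * a))) := by ring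
  rw [w5] at w3
  have w6 := w3.trans w4
  have w7 : 2 * C3 * (1 + -(2 * a + 3 * b) + (3 / 2 * b + 8 / 3 * a)) =
      2 * (C3 * (1 + (-(3 / 2) * b + 2 / 3 * a))) := by ring
  rw [w7] at w6
  have I32b : I p 1 (-(3 / 2) * b) := Ib.mulL (neg_mem m32)
  have I23a : I p 1 (2 / 3 * a) := Ia.mulL m23
  have w8 := EQ_cancel u2 (lin_UU (p := p) h3).zero
    (mul_mem mC3 (U_small (I32b.add I23a)).2.1) w6
  refine w8.trans ?_
  -- compare with C4
  have u16 : U p ((16 : ℚ) ^ j) := by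
    have : (16 : ℚ) = 4 * 4 := by norm_num
    rw [this]; exact (u4.mul u4).pow j
  have z1 := e1.mul (EQ.refl (k := 2) (mul_mem u16.2.2 (U_small I23a).2.1))
  have z2 : 16 ^ j * C3 * (1 + -(3 / 2) * b) * ((16 ^ j)⁻¹ * (1 + 2 / 3 * a)) =
      C3 * ((1 + -(3 / 2) * b) * (1 + 2 / 3 * a)) := by
    have a1 := u16.1
    field_simp
  rw [z2] at z1
  have z3 := (EQ.refl (k := 2) mC3).mul (mul_small I32b I23a)
  have z4 : 1 + -(3 / 2) * b + 2 / 3 * a = 1 + (-(3 / 2) * b + 2 / 3 * a) := by ring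
  rw [z4] at z3
  exact (z1.trans z3).symm

end Pool.Agent.K3h68.FE
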