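import Mathlib
import Pool.Agent.K3h68.FE.Fam
import Pool.Agent.K3h68.FE.Gen

set_option autoImplicit false

/-!
MP_37e900_nt, Q2 (b): `p = 2` modulo `3`.
-/

namespace Pool.Agent.K3h68.FE

open Finset Pool.Agent.R439.PL Pool.Agent.R439.PL.S4 Pool.Agent.R488.Tri Pool.Agent.R488.Cub Pool.Agent.R488.Nin

variable {p : ℕ} [hp : Fact p.Prime]

theorem not_sq (h2 : p % 3 = 2) (h3 : 3 < p) : ¬ IsSquare (-3 : ZMod p) := by
  rintro ⟨x, hx⟩
  have hne2 : (2 : ZMod p) ≠ 0 := by
    intro h
    have : ((2 : ℕ) : ZMod p) = 0 := by exact_mod_cast h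
    rw [ZMod.natCast_eq_zero_iff] at this
    have := Nat.le_of_dvd (by norm_num) this
    omega
  have hne3 : (3 : ZMod p) ≠ 0 := by
    intro h
    have : ((3 : ℕ) : ZMod p) = 0 := by exact_mod_cast h
    rw [ZMod.natCast_eq_zero_iff] at this
    have := Nat.le_of_dvd (by norm_num) this
    omega
  set w : ZMod p := (x - 1) / 2 with hw
  have h2w : 2 * w = x - 1 := by rw [hw]; field_simp
  have hw2 : w ^ 2 + w + 1 = 0 := by
    have h4 : (2 * 2 : ZMod p) * (w ^ 2 + w + 1) = 0 := by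
      have : (2 * 2 : ZMod p) * (w ^ 2 + w + 1) = (2 * w) ^ 2 + 2 * (2 * w) + 4 := by ring
      rw [this, h2w]
      linear_combination -hx
    rcases mul_eq_zero.1 h4 with h | h
    · exact absurd h (mul_ne_zero hne2 hne2)
    · exact h
  have hw3 : w ^ 3 = 1 := by linear_combination (w - 1) * hw2
  have hw1 : w ≠ 1 := by
    intro h
    rw [h] at hw2
    apply hne3
    linear_combination hw2
  have hw0 : w ≠ 0 := by
    intro h
    rw [h] at hw3
    norm_num at hw3
  have ho : orderOf w = 3 := orderOf_eq_prime hw3 hw1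
  have hd : orderOf w ∣ p - 1 := orderOf_dvd_of_pow_eq_one (ZMod.pow_card_sub_one_eq_one hw0)
  rw [ho] at hd
  omega

theorem neg3 {n : ℕ} (hn : p = 2 * n + 1) (h2 : p % 3 = 2) (h3 : 3 < p) : EQ p 1 ((-3 : ℚ) ^ n) (-1) := by
  have hne3 : (-3 : ZMod p) ≠ 0 := by
    intro h
    have : ((3 : ℕ) : ZMod p) = 0 := by
      push_cast
      linear_combination -h
    rw [ZMod.natCast_eq_zero_iff] at this
    have := Nat.le_of_dvd (by norm_num) this
    omega
  have h4 : (-3 : ZMod p) ^ (p / 2) = -1 := by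
    rcases ZMod.pow_div_two_eq_neg_one_or_one p hne3 with h | h
    · exact absurd ((ZMod.euler_criterion p hne3).2 h) (not_sq h2 h3)
    · exact h
  have e : p / 2 = n := by omega
  rw [e] at h4
  have h5 : (p : ℤ) ^ 1 ∣ (-3) ^ n - (-1) := by
    rw [pow_one, ← ZMod.intCast_eq_intCast_iff_dvd_sub]
    push_cast
    exact h4.symm
  have := Pool.Agent.R488.Cub.JSm.EQ_int (p := p) (k := 1) (a := (-3) ^ n) (b := -1) h5
  push_cast at this
  exact this

/-- Q2 (b) -/
theorem UU_two {j : ℕ} (hj : p = 6 * j + 5) :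
    EQ p 2 (UU p 0) (3 * p / (2 * ((3 * j + 3).choose (j + 1) : ℚ))) := by
  have h3 : 3 < p := by omega
  obtain ⟨n, hn⟩ : ∃ n, n = 3 * j + 2 := ⟨_, rfl⟩
  obtain ⟨e, he⟩ : ∃ e, e = 2 * j + 1 := ⟨_, rfl⟩
  have hpn : p = 2 * n + 1 := by omega
  obtain ⟨u2, u3, u4⟩ := Us h3
  obtain ⟨y, hy1, hy2, hy3, hy4⟩ := gen (p := p) (c := 2) (e := e) (h := j) (n := n) h3 hpn (by omega) (by omega)
  have v1 := UU_val (p := p) (N := n) (m := 1) (by omega) (by norm_num)
  have v3 := UU_val (p := p) (N := 3 * n + 1) (m := 3) (by omega) (by norm_num)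
  push_cast at hy3 hy4 v1 v3
  rw [one_mul] at v1
  rw [hy3] at v1
  rw [← v3] at hy4
  have Ip := I_p (p := p)
  have hI : I p 1 ((p : ℚ) / 4) := by rw [div_eq_mul_inv]; exact Ip.mulR u4.2.2
  have hin := interp3 (lin_UU (p := p) h3) u3 hI
  have e3 : (3 : ℚ) * (p / 4) = 3 * p / 4 := by ring
  rw [e3, v1] at hin
  have mpy : (p : ℚ) * y ∈ Zp p := mul_mem p_mem hy2
  have h1 := hin.trans ((EQ.refl (k := 2) (mul_mem u3.2.1 mpy)).sub hy4)
  have e4 : 3 * ((p : ℚ) * y) - 2 * (p * y) = p * y := by ring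
  rw [e4] at h1
  -- y * c = 3
  obtain ⟨c, hc⟩ : ∃ c : ℚ, c = ((3 * j + 3).choose (j + 1) : ℚ) := ⟨_, rfl⟩
  rw [← hc]
  have uc : U p c := by rw [hc]; exact C_unit (by omega) (by omega)
  have une := U_fac (p := p) (k := n) (by omega)
  have mone : ∀ k : ℕ, ((-1 : ℚ)) ^ k ∈ Zp p := fun k => pow_mem (neg_mem (one_mem _)) k
  have hyc : EQ p 1 (y * c) 3 := by
    -- (2n)! = (-1)^n n!^2
    have g1 : EQ p 1 ((2 * n).factorial : ℚ) ((-1) ^ n * (n.factorial * n.factorial)) := by
      have h := Pool.Agent.R488.Cub.JSm.choose_pm1 (p := p) n (by omega)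
      rw [show p - 1 = 2 * n by omega] at h
      have h2 := h.mul (EQ.refl (p := p) (k := 1) (mul_mem une.2.1 une.2.1))
      have e5 : ((2 * n).choose n : ℚ) * (n.factorial * n.factorial) = (2 * n).factorial := by
        have h5 := Nat.choose_mul_factorial_mul_factorial (show n ≤ 2 * n by omega)
        rw [show 2 * n - n = n by omega] at h5
        rw [← mul_assoc]; exact_mod_cast h5
      rwa [e5] at h2
    -- c e! j! = 9 n!
    have g2 : EQ p 1 (c * (e.factorial * j.factorial)) (9 * n.factorial) := by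
      have h5 := Nat.choose_mul_factorial_mul_factorial (show j + 1 ≤ 3 * j + 3 by omega)
      rw [show 3 * j + 3 - (j + 1) = 2 * j + 2 by omega] at h5
      have h6 : c * (j + 1).factorial * (2 * j + 2).factorial = (3 * j + 3).factorial := by
        rw [hc]; exact_mod_cast h5
      have h7 : ((j + 1).factorial : ℚ) = (j + 1) * j.factorial := by rw [Nat.factorial_succ]; push_cast; ring
      have h8 : ((2 * j + 2).factorial : ℚ) = (2 * j + 2) * e.factorial := by
        rw [he, show 2 * j + 2 = (2 * j + 1) + 1 by ring, Nat.factorial_succ]; push_cast; ring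
      have h9 : ((3 * j + 3).factorial : ℚ) = (3 * j + 3) * n.factorial := by
        rw [hn, show 3 * j + 3 = (3 * j + 2) + 1 by ring, Nat.factorial_succ]; push_cast; ring
      rw [h7, h8, h9] at h6
      have a1 : (j : ℚ) + 1 ≠ 0 := by positivity
      have h10 : c * (2 * j + 2) * (e.factorial * j.factorial) = 3 * n.factorial := by
        apply mul_left_cancel₀ a1
        linear_combination h6
      have hpq : (p : ℚ) = 6 * j + 5 := by exact_mod_cast hj
      have mm : c * (e.factorial * j.factorial) ∈ Zp p :=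
        mul_mem uc.2.1 (mul_mem (nat_mem _) (nat_mem _))
      refine ⟨mm, mul_mem (by exact_mod_cast nat_mem (p := p) 9) (nat_mem _), ?_⟩
      have e6 : c * (e.factorial * j.factorial) - 9 * n.factorial = -(p * (c * (e.factorial * j.factorial))) := by
        linear_combination (c * (e.factorial * j.factorial)) * hpq + 3 * h10
      rw [e6]
      exact (Ip.mulR mm).neg
    have mA : (-3 : ℚ) ^ e * 3 ^ j ∈ Zp p := mul_mem (pow_mem (neg_mem u3.2.1) _) (pow_mem u3.2.1 _)
    -- combine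
    have k1 : EQ p 1 ((n.factorial * n.factorial : ℚ) * ((-1) ^ n * (y * c)))
        ((n.factorial * n.factorial : ℚ) * ((-3) ^ e * 3 ^ j * 9)) := by
      have k2 := ((EQ.refl (k := 1) hy2).mul g1).symm.trans hy1
      have k3 := k2.mul (EQ.refl (k := 1) uc.2.1)
      have k4 := ((EQ.refl (k := 1) (mul_mem mA une.2.1)).mul g2)
      have e7 : y * ((-1) ^ n * (n.factorial * n.factorial : ℚ)) * c =
          (n.factorial * n.factorial : ℚ) * ((-1) ^ n * (y * c)) := by ring
      have e8 : (-3) ^ e * (e.factorial : ℚ) * (3 ^ j * j.factorial) * n.factorial * c =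
          (-3) ^ e * 3 ^ j * n.factorial * (c * (e.factorial * j.factorial)) := by ring
      have e9 : (-3) ^ e * 3 ^ j * (n.factorial : ℚ) * (9 * n.factorial) =
          (n.factorial * n.factorial : ℚ) * ((-3) ^ e * 3 ^ j * 9) := by ring
      rw [e7, e8] at k3
      rw [e9] at k4
      exact k3.trans k4
    have m9 : (9 : ℚ) ∈ Zp p := by exact_mod_cast nat_mem (p := p) 9
    have k5 := EQ_cancel (une.mul une) (mul_mem (mone n) (mul_mem hy2 uc.2.1)) (mul_mem mA m9) k1
    have k6 := (EQ.refl (p := p) (k := 1) (mone n)).mul k5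
    have s1 := mone_sq' n
    have e10 : (-1 : ℚ) ^ n * ((-1) ^ n * (y * c)) = y * c := by linear_combination (y * c) * s1
    have e11 : (-1 : ℚ) ^ n * ((-3) ^ e * 3 ^ j * 9) = -3 * (-3) ^ n := by
      rw [he, hn]
      have e12 : (-3 : ℚ) ^ (2 * j + 1) = -(3 * 9 ^ j) := by rw [pow_succ, pow_mul]; norm_num; ring
      have e13 : (-1 : ℚ) ^ (3 * j + 2) = (-1) ^ j := by rw [pow_add, pow_mul]; norm_num
      have e14 : (-3 : ℚ) ^ (3 * j + 2) = 9 * ((-1) ^ j * 27 ^ j) := by
        rw [pow_add, pow_mul, ← mul_pow]; norm_num; ring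
      have e15 : (27 : ℚ) ^ j = 9 ^ j * 3 ^ j := by rw [← mul_pow]; norm_num
      rw [e12, e13, e14, e15]; ring
    rw [e10, e11] at k6
    have k7 := k6.trans ((EQ.refl (p := p) (k := 1) (neg_mem u3.2.1)).mul (neg3 hpn (by omega) h3))
    have e16 : (-3 : ℚ) * -1 = 3 := by norm_num
    rwa [e16] at k7
  -- conclusion
  have hyc' : EQ p 1 y (3 / c) := by
    have h := hyc.mul (EQ.refl (k := 1) uc.2.2)
    have a1 := uc.1
    have e5 : y * c * c⁻¹ = y := by field_simp
    rwa [e5, ← div_eq_mul_inv] at h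
  have h2 := h1.trans (EQ_small Ip hyc')
  have e6 : (p : ℚ) * (3 / c) = 2 * (3 * p / (2 * c)) := by
    have a1 := uc.1
    field_simp
  rw [e6] at h2
  exact EQ_cancel u2 (lin_UU (p := p) h3).zero (by
    rw [div_eq_mul_inv]
    exact mul_mem (mul_mem u3.2.1 p_mem) (u2.mul uc).2.2) h2

end Pool.Agent.K3h68.FE
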