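import Mathlib
import Pool.Agent.K3h68.FE.One2
import Pool.Agent.K3h68.FE.Two
import Pool.Agent.K3h68.FE.AA
import Pool.Agent.R488.Tw.Main
import Pool.Agent.R488.Tw.J
import Pool.Agent.R488.Tw.QF

set_option autoImplicit false

/-!
MP_37e900_nt: final congruences.
-/

namespace Pool.Agent.K3h68.FE

open Finset Pool.Agent.R439.PL Pool.Agent.R439.PL.S4 Pool.Agent.R488.Tri Pool.Agent.R488.Cub Pool.Agent.R488.Nin
  Pool.Agent.R488.Tw

variable {p j : ℕ} [hp : Fact p.Prime]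

theorem final_one (hpj : p = 6 * j + 1) :
    (∃ x y : ℤ, (p : ℤ) = x ^ 2 + 3 * y ^ 2 ∧ x % 3 = 1) ∧
    ∀ x y : ℤ, (p : ℤ) = x ^ 2 + 3 * y ^ 2 → x % 3 = 1 →
      EQ p 2 (UU p 0) (2 * x - p / (2 * x)) ∧ EQ p 2 (GG p 0 + 1 / 2 * UU p 0) x := by
  obtain ⟨a, b, C4, C3, C2, hC4, hC3, hC2, ha, hb, Ia, Ib, uC4, mC3, mC2, E3, E2, E1, e1, e6⟩ :=
    facts harm hpj
  have hj := j_pos hpj
  have h3 : 3 < p := by omega
  obtain ⟨u2, u3, u4⟩ := Us h3
  have m12 : (1 / 2 : ℚ) ∈ Zp p := by rw [one_div]; exact u2.2.2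
  have m13 : (1 / 3 : ℚ) ∈ Zp p := by rw [one_div]; exact u3.2.2
  obtain ⟨A, B, t, hAB, hA, ht, hJS⟩ := twJ p j hpj
  refine ⟨⟨-A, B, by rw [hAB]; ring, by omega⟩, ?_⟩
  intro x y hxy hx
  have hf := twF p j hpj a ha
  -- UU = - (A + B t)
  obtain ⟨l, hl⟩ : ∃ l : ℚ, l = (A : ℚ) + B * t := ⟨_, rfl⟩
  rw [← hl] at hJS
  have mt : (t : ℚ) ∈ Zp p := int_mem t
  have mA : (A : ℚ) ∈ Zp p := int_mem A
  have mB : (B : ℚ) ∈ Zp p := int_mem B
  have It : I p 2 ((t : ℚ) ^ 2 + 3) := by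
    have := I_of_dvd (p := p) ht
    push_cast at this
    exact this
  have c1 : EQ p 2 (C4 * ((16 ^ j)⁻¹ * (1 + 2 / 3 * a))) (-l) := by
    have h1 := (JS_eq (p := p) hpj)
    rw [← hC4] at h1
    have h2 := (h1.mul (EQ.refl (k := 2) hf.1)).symm.trans hJS
    have h3 := ((EQ.refl (k := 2) uC4.2.1).mul hf).symm
    have h4 := h2.neg
    have e : -(-C4 * (256 : ℚ) ^ (j * p)) = C4 * 256 ^ (j * p) := by ring
    rw [e] at h4
    exact h3.trans h4
  have hU := UU_zero hpj hC3 ha hb Ia Ib E2 E1 e1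
  have hUl := hU.trans c1
  have u16 : U p ((16 : ℚ) ^ j) := by
    have : (16 : ℚ) = 4 * 4 := by norm_num
    rw [this]; exact (u4.mul u4).pow j
  have I23a : I p 1 (2 / 3 * a) := by
    have : 2 / 3 * a = (2 * 3⁻¹) * a := by ring
    rw [this]; exact Ia.mulL (mul_mem u2.2.1 u3.2.2)
  have ul : U p l := by
    have h1 : U p (C4 * ((16 ^ j)⁻¹ * (1 + 2 / 3 * a))) := uC4.mul (u16.inv.mul (U_small I23a))
    have h2 := U_neg (c1.unit (by norm_num) h1)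
    rwa [neg_neg] at h2
  -- conjugate
  obtain ⟨μ, hμ⟩ : ∃ μ : ℚ, μ = (A : ℚ) - B * t := ⟨_, rfl⟩
  have mμ : μ ∈ Zp p := by rw [hμ]; exact sub_mem mA (mul_mem mB mt)
  have hlμ : I p 2 (l * μ - p) := by
    have e : l * μ - p = -(B : ℚ) * B * ((t : ℚ) ^ 2 + 3) := by
      have h : ((p : ℤ) : ℚ) = (A : ℚ) ^ 2 + 3 * (B : ℚ) ^ 2 := by exact_mod_cast congrArg (Int.cast (R := ℚ)) hAB
      have h' : (p : ℚ) = (A : ℚ) ^ 2 + 3 * (B : ℚ) ^ 2 := by exact_mod_cast h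
      rw [hl, hμ, h']; ring
    rw [e]; exact It.mulL (mul_mem (neg_mem mB) mB)
  have Iμ : I p 1 μ := by
    refine ul.cancel ?_
    have e : l * μ = (l * μ - p) + p := by ring
    rw [e]; exact (hlμ.mono (by norm_num)).add I_p
  have uA2 : U p (2 * (A : ℚ)) := by
    refine U_of_not_I (mul_mem u2.2.1 mA) fun h => ?_
    have h1 : I p 1 l := by
      have e : l = 2 * (A : ℚ) - μ := by rw [hl, hμ]; ring
      rw [e]; exact h.sub Iμ
    exact ul.not_I (by norm_num) h1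
  -- x = -A
  have hxA : x = -A := by
    have h1 : x ^ 2 = A ^ 2 := by
      rcases twQ p hp.out x y A B hxy hAB with h | h
      · rw [h] at hxy; linear_combination -hxy + hAB
      · rw [h] at hxy; linear_combination -hxy + hAB
    rcases sq_eq_sq_iff_eq_or_eq_neg.1 h1 with h | h
    · omega
    · exact h
  have hxq : (x : ℚ) = -A := by rw [hxA]; push_cast; ring
  have u2x : U p (2 * (x : ℚ)) := by
    rw [hxq]
    have := U_neg uA2
    have e : 2 * (-(A : ℚ)) = -(2 * A) := by ring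
    rwa [e]
  have m2x : (2 : ℚ) * x - p / (2 * x) ∈ Zp p :=
    sub_mem u2x.2.1 (by rw [div_eq_mul_inv]; exact mul_mem p_mem u2x.2.2)
  have hSx : EQ p 2 (UU p 0) (2 * x - p / (2 * x)) := by
    refine hUl.trans ⟨neg_mem ul.2.1, m2x, ?_⟩
    refine u2x.cancel ?_
    have e : 2 * (x : ℚ) * (-l - (2 * x - p / (2 * x))) = -(μ * μ) - (l * μ - p) := by
      have hx0 := u2x.1
      have e1 : 2 * (x : ℚ) * (-l - (2 * x - p / (2 * x))) = -(2 * x) * l - 2 * x * (2 * x) + p := by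
        have e0 : 2 * (x : ℚ) * (p / (2 * x)) = p := by rw [mul_div_assoc']; exact mul_div_cancel_left₀ _ hx0
        linear_combination e0
      have hlm : l + μ = -(2 * (x : ℚ)) := by rw [hl, hμ, hxq]; ring
      rw [e1]
      linear_combination (-(2 * (x : ℚ)) + μ) * hlm
    rw [e]
    exact (Iμ.mul Iμ).neg.sub hlμ
  refine ⟨hSx, ?_⟩
  -- C3 = 2x modulo p
  have uC3 : U p C3 := by rw [hC3]; exact C_unit (by omega) (by omega)
  have hx1 : EQ p 1 (2 * x - p / (2 * x)) (2 * (x : ℚ)) := by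
    refine ⟨m2x, u2x.2.1, ?_⟩
    have e : (2 : ℚ) * x - p / (2 * x) - 2 * x = p * (-(2 * (x : ℚ))⁻¹) := by rw [div_eq_mul_inv]; ring
    rw [e]; exact (I_p (p := p)).mulR (neg_mem u2x.2.2)
  have hC3x : EQ p 1 C3 (2 * (x : ℚ)) := by
    have h1 := (hU.symm.trans hSx).mono (by norm_num : 1 ≤ 2)
    have m32 : (3 / 2 : ℚ) ∈ Zp p := by rw [div_eq_mul_inv]; exact mul_mem u3.2.1 u2.2.2
    have I32b : I p 1 (-(3 / 2) * b) := Ib.mulL (neg_mem m32)
    have h2 := ((e1.mono (by norm_num : 1 ≤ 2)).trans (EQ_one (mul_mem u16.2.1 uC3.2.1) I32b))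
    have h4 := h2.mul (EQ.refl (k := 1) (mul_mem u16.2.2 (U_small I23a).2.1))
    have h5 : 16 ^ j * C3 * ((16 ^ j)⁻¹ * (1 + 2 / 3 * a)) = C3 * (1 + 2 / 3 * a) := by
      have a1 := u16.1
      field_simp
    rw [h5] at h4
    have h6 := h4.trans (EQ_one uC3.2.1 I23a)
    exact (h6.symm.trans h1).trans hx1
  have hG := GG_zero hpj hC3 hb Ib
  have h7 := hG.trans (EQ_small (I_p (p := p)) (hC3x.inv (by norm_num) uC3))
  have h8 := h7.add hSx
  have e2 : (p : ℚ) * (2 * (x : ℚ))⁻¹ + (2 * x - p / (2 * x)) = 2 * x := by rw [div_eq_mul_inv]; ring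
  rw [e2] at h8
  have e3 : 2 * GG p 0 + UU p 0 = 2 * (GG p 0 + 1 / 2 * UU p 0) := by ring
  rw [e3] at h8
  exact EQ_cancel u2 (add_mem (lin_GG (p := p) h3).zero (mul_mem m12 (lin_UU (p := p) h3).zero)) (int_mem x) h8

end Pool.Agent.K3h68.FE
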